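import Pool.Agent.P.MP_d483fb_an.Z.EM.One
import Pool.Agent.P.MP_d483fb_an.Z.ST.Limit

/-!
Exponential decay of matrix coefficients for finitely many factors.
-/

open scoped RealInnerProductSpace
open Filter Topology Set

namespace Pool.Agent.P.MP_d483fb_an.Z.EM

open _root_.Pool.Agent.P.MP_d483fb_an.Z.ST

variable {G : Type*} [Group G] [TopologicalSpace G] [IsTopologicalGroup G] {H : Type*}
  [NormedAddCommGroup H] [InnerProductSpace ℝ H] [CompleteSpace H] {sz dd : G → ℝ}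
  {π : G →* (H →L[ℝ] H)}

omit [IsTopologicalGroup G] [CompleteSpace H] in
lemma grow_of_iso (hs : Size sz dd) (hπ : ∀ g v, ‖π g v‖ = ‖v‖)
    (hc : ∀ v, Continuous fun g => π g v) : Grow sz π := by
  refine ⟨hc, fun ε hε => ⟨1, fun g => ?_⟩⟩
  have h1 : ‖π g‖ ≤ 1 := ContinuousLinearMap.opNorm_le_bound _ zero_le_one fun v => by
    rw [hπ, one_mul]
  rw [one_mul]
  exact h1.trans (Real.one_le_rpow (hs.one_le g) hε.le)

omit [IsTopologicalGroup G] in
theorem mixH_of_data (hs : Size sz dd) (hπ : ∀ g v, ‖π g v‖ = ‖v‖)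
    (hc : ∀ v, Continuous fun g => π g v) {ι : Type*} [Finite ι] (D : ι → Data sz dd)
    (N : ι → Subgroup G) (hn : ∀ i, (N i).Normal)
    (hN : ∀ i (S : Subgroup G), IsClosed (S : Set G) →
      (∀ g, Contr dd (D i).a g ∨ Contr dd (D i).a⁻¹ g → g ∈ S) → N i ≤ S)
    (hz : ∀ i (t : ℝ), (D i).e1 ![t, 0, 0] ∈ N i)
    (lz : ∀ i, LipAt dd fun t => (D i).e1 ![t, 0, 0]) {Far : G → ℝ → Prop} {c e : ℝ} (hc1 : 1 ≤ c)
    (he : 0 < e)
    (hfar : ∀ g t, Far g t → ∃ k a k' : G, g = k * a * k' ∧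
      (∀ x, dd (k * x * k⁻¹) ≤ c * dd x) ∧ (∀ x, dd (k'⁻¹ * x * k') ≤ c * dd x) ∧
      ∃ J : Set ι, (∀ S : Subgroup G, IsClosed (S : Set G) → (∀ i ∈ J, N i ≤ S) → S = ⊤) ∧
        ∀ i ∈ J, ∃ T, e * t ≤ T ∧ ∀ u : ℝ,
          a⁻¹ * (D i).e1 ![u, 0, 0] * a = (D i).e1 ![Real.exp (-T) * u, 0, 0]) :
    MixH dd Far π := by
  classical
  have := Fintype.ofFinite ι
  have hg := grow_of_iso hs hπ hc
  have h1 : ∀ i, _ := fun i => em_one hπ hg (D i) (N i) (lz i) (by
    obtain ⟨P, ⟨F, hF, hP⟩, -, hf⟩ := one_factor hs hg (D i) (hol_gLip (dd := dd) (π := π))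
    exact rate_prj hπ hg (D i) (hz i) hF hP fun v hv g hgN =>
      hN i (stabV π (P v)) (isClosed_stabV hc _) (fun g h => hf v hv g h) hgN)
  choose κ hκ C hC h using h1
  obtain ⟨κ0, hκ0, hκ1⟩ : ∃ κ0 : ℝ, 0 < κ0 ∧ ∀ i, κ0 ≤ κ i := by
    rcases isEmpty_or_nonempty ι with hι | hι
    · exact ⟨1, one_pos, fun i => hι.elim i⟩
    · obtain ⟨i, hi⟩ := Finite.exists_min κ
      exact ⟨κ i, hκ i, hi⟩
  set C0 := 2 + ∑ i, C i with hC0
  have hs0 : 0 ≤ ∑ i, C i := Finset.sum_nonneg fun i _ => hC i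
  have hCi : ∀ i, C i ≤ C0 := fun i => by
    have := Finset.single_le_sum (fun i _ => hC i) (Finset.mem_univ i)
    linarith
  have hC2 : 2 ≤ C0 := by linarith
  refine ⟨κ0 * e, by positivity, Fintype.card ι * (C0 * c * c), by positivity, ?_⟩
  intro g t hF M M' x v hx hv
  obtain ⟨k, a, k', rfl, hk, hk', J, hJ, hT⟩ := hfar g t hF
  have hM := hx.nonneg
  have hM' := hv.nonneg
  have hx' := hx.conj hπ hc1 hk'
  have hv' : GLip dd π (c * M') (π k⁻¹ v) := hv.conj hπ hc1 (by simpa using hk)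
  have hE := Real.exp_pos (-(κ0 * e * t))
  have key := telescope_top hπ hc N hn (Finset.univ.filter (· ∈ J))
    (fun S hS h => hJ S hS fun i hi => h i (by simpa using hi)) (GLip dd π (c * M'))
    (fun i v hv => hv.prj hπ (hn i)) (π a (π k' x))
    (C0 * (c * M) * (c * M') * Real.exp (-(κ0 * e * t))) (by
      intro i hi w hw
      obtain ⟨T, hT1, hT2⟩ := hT i (by simpa using hi)
      rcases le_total 0 t with ht | ht
      · refine (h i a T hT2 _ _ _ _ hx' hw).trans ?_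
        have : Real.exp (-(κ i * T)) ≤ Real.exp (-(κ0 * e * t)) := by
          apply Real.exp_le_exp.2
          have h3 : 0 ≤ e * t := by positivity
          have := mul_le_mul (hκ1 i) hT1 h3 (hκ i).le
          linarith
        have := hCi i
        gcongr
      · have h2 : ‖w - prj π (N i) w‖ ≤ 2 * (c * M') := by
          have := norm_sub_le w (prj π (N i) w)
          linarith [norm_prj_le π (N i) w, hw.1]
        have h3 : 1 ≤ Real.exp (-(κ0 * e * t)) := by
          apply Real.one_le_exp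
          have : 0 ≤ κ0 * e := by positivity
          nlinarith
        calc _ ≤ ‖π a (π k' x)‖ * ‖w - prj π (N i) w‖ := abs_real_inner_le_norm _ _
          _ ≤ (c * M) * (2 * (c * M')) := by
              rw [hπ]
              exact mul_le_mul hx'.1 h2 (norm_nonneg _) (by positivity)
          _ = 2 * (c * M) * (c * M') * 1 := by ring
          _ ≤ _ := by gcongr) (π k⁻¹ v) hv'
  have e1 : ⟪π (k * a * k') x, v⟫ - ⟪prj π ⊤ x, prj π ⊤ v⟫ =
      ⟪π a (π k' x), π k⁻¹ v - prj π ⊤ (π k⁻¹ v)⟫ := by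
    rw [inner_sub_right, prj_pi_of_mem hπ (Subgroup.mem_top _), ← pi_mul π a k',
      inner_pi_prj_top hπ, mul_assoc, pi_mul π k, inner_pi_left hπ k]
  rw [e1]
  refine key.trans ?_
  have hcard : ((Finset.univ.filter (· ∈ J)).card : ℝ) ≤ Fintype.card ι := by
    exact_mod_cast Finset.card_le_univ _
  calc _ ≤ Fintype.card ι * (C0 * (c * M) * (c * M') * Real.exp (-(κ0 * e * t))) := by gcongr
    _ = _ := by ring

end Pool.Agent.P.MP_d483fb_an.Z.EM
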