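import Pool.Agent.P.MP_d483fb_an.Z.EM.Proj
import Pool.Agent.P.MP_d483fb_an.Z.Path.Defs

/-!
Definitions for exponential mixing: the gauge at the identity, Lipschitz vectors, functions and
measures, and the Koopman representation.
-/

open scoped Matrix Matrix.Norms.Operator RealInnerProductSpace Topology
open MeasureTheory Filter Set

noncomputable section

namespace Pool.Agent.P.MP_d483fb_an.Z.EM

/-- A continuous subadditive gauge at the identity, comparable with the matrix distance. -/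
structure Gauge {G : Type} [Group G] [TopologicalSpace G] {n : ℕ} (D : ExpData G n) where
  dd : G → ℝ
  c : ℝ
  c_nonneg : 0 ≤ c
  nonneg : ∀ g, 0 ≤ dd g
  one : dd 1 = 0
  mul : ∀ g h, dd (g * h) ≤ dd g + dd h
  inv : ∀ g, dd g⁻¹ = dd g
  ex_le : ∀ X ∈ D.g, dd (D.ex X) ≤ c * ‖X‖
  conj : ∀ g h, dd (h⁻¹ * g * h) ≤ ‖D.ρ h⁻¹‖ * ‖D.ρ h‖ * dd g
  cont : Continuous dd
  cpt : IsCompact {g | dd g ≤ 2}
  basis : ∀ W ∈ 𝓝 (1 : G), ∃ r, 0 < r ∧ {g | dd g ≤ r} ⊆ W
  le_rho : ∀ᶠ g in 𝓝 (1 : G), dd g ≤ c * ‖D.ρ g - 1‖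

/-- An admissible size function. -/
structure SzOK {G : Type} [Group G] [TopologicalSpace G] {n : ℕ} (D : ExpData G n) (sz : G → ℝ) :
    Prop where
  one_le : ∀ g, 1 ≤ sz g
  mul : ∀ g h, sz (g * h) ≤ sz g * sz h
  inv : ∀ g, sz g⁻¹ = sz g
  bdd : ∀ K : Set G, IsCompact K → ∃ C, ∀ g ∈ K, sz g ≤ C
  rho : ∀ g, ‖D.ρ g‖ ≤ sz g

section Hilbert

variable {G : Type*} [Group G] {H : Type*} [NormedAddCommGroup H] [InnerProductSpace ℝ H]

/-- A bounded vector that is Lipschitz for the gauge `dd`. -/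
def GLip (dd : G → ℝ) (π : G →* (H →L[ℝ] H)) (M : ℝ) (v : H) : Prop :=
  ‖v‖ ≤ M ∧ ∀ g, ‖π g v - v‖ ≤ M * dd g

/-- Exponential decay of the matrix coefficients of Lipschitz vectors. -/
def MixH [CompleteSpace H] (dd : G → ℝ) (Far : G → ℝ → Prop) (π : G →* (H →L[ℝ] H)) : Prop :=
  ∃ κ : ℝ, 0 < κ ∧ ∃ C : ℝ, 0 ≤ C ∧ ∀ g t, Far g t → ∀ (M M' : ℝ) (x v : H),
    GLip dd π M x → GLip dd π M' v →
      |⟪π g x, v⟫ - ⟪prj π ⊤ x, prj π ⊤ v⟫| ≤ C * M * M' * Real.exp (-(κ * t))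

end Hilbert

section Meas

variable {G : Type*} [Group G] {X : Type*} [MulAction G X] [MeasurableSpace X]

/-- A bounded measurable function that is Lipschitz along the action. -/
def FLip (dd : G → ℝ) (M : ℝ) (f : X → ℝ) : Prop :=
  Measurable f ∧ (∀ x, |f x| ≤ M) ∧ ∀ (g : G) x, |f (g⁻¹ • x) - f x| ≤ M * dd g

/-- Exponential mixing for Lipschitz functions. -/
def Mix (dd : G → ℝ) (Far : G → ℝ → Prop) (μ : Measure X) : Prop :=
  ∃ κ : ℝ, 0 < κ ∧ ∃ C : ℝ, 0 ≤ C ∧ ∀ g t, Far g t → ∀ (M M' : ℝ) (f h : X → ℝ),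
    FLip dd M f → FLip dd M' h →
      |∫ x, f (g⁻¹ • x) * h x ∂μ - (∫ x, f x ∂μ) * ∫ x, h x ∂μ| ≤
        C * M * M' * Real.exp (-(κ * t))

/-- A measure on the group that is Lipschitz in total variation under left translations. -/
def LipM [MeasurableSpace G] (dd : G → ℝ) (M : ℝ) (ν : Measure G) : Prop :=
  ∀ (g : G) (f : G → ℝ), Measurable f → (∀ u, |f u| ≤ 1) →
    |∫ u, f (g * u) ∂ν - ∫ u, f u ∂ν| ≤ M * dd g

/-- The Koopman representation on `L²`. -/
def koop (G : Type*) [Group G] [MulAction G X] (μ : Measure X) [MeasurableConstSMul G X]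
    [SMulInvariantMeasure G X μ] : G →* (Lp ℝ 2 μ →L[ℝ] Lp ℝ 2 μ) where
  toFun g := (Lp.compMeasurePreservingₗᵢ ℝ (fun x => g⁻¹ • x)
    (measurePreserving_smul g⁻¹ μ)).toContinuousLinearMap
  map_one' := by
    ext f
    refine (Lp.coeFn_compMeasurePreserving f (measurePreserving_smul (1 : G)⁻¹ μ)).trans ?_
    refine Eventually.of_forall fun x => ?_
    simp
  map_mul' g h := by
    ext f
    refine (Lp.coeFn_compMeasurePreserving f (measurePreserving_smul (g * h)⁻¹ μ)).trans ?_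
    have h1 := Lp.coeFn_compMeasurePreserving
      (Lp.compMeasurePreserving (fun x => h⁻¹ • x) (measurePreserving_smul h⁻¹ μ) f)
      (measurePreserving_smul g⁻¹ μ)
    have h2 := (measurePreserving_smul g⁻¹ μ).quasiMeasurePreserving.ae_eq_comp
      (Lp.coeFn_compMeasurePreserving f (measurePreserving_smul h⁻¹ μ))
    refine EventuallyEq.symm ((h1.trans h2).trans (Eventually.of_forall fun x => ?_))
    simp [mul_smul]

theorem koop_ae (μ : Measure X) [MeasurableConstSMul G X] [SMulInvariantMeasure G X μ] (g : G)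
    (f : Lp ℝ 2 μ) : koop G μ g f =ᵐ[μ] fun x => f (g⁻¹ • x) :=
  Lp.coeFn_compMeasurePreserving f (measurePreserving_smul g⁻¹ μ)

theorem koop_norm (μ : Measure X) [MeasurableConstSMul G X] [SMulInvariantMeasure G X μ] (g : G)
    (f : Lp ℝ 2 μ) : ‖koop G μ g f‖ = ‖f‖ :=
  Lp.norm_compMeasurePreserving f (measurePreserving_smul g⁻¹ μ)

end Meas

end Pool.Agent.P.MP_d483fb_an.Z.EM
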