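import Pool.Agent.P.MP_d483fb_an.Z.EM.Defs

/-!
Smoothing of bounded functions by a probability measure on the group, and the comparison of the
Haar measure with the invariant measure of a homogeneous space.
-/

open scoped Matrix Matrix.Norms.Operator RealInnerProductSpace Topology Pointwise ENNReal
open MeasureTheory Filter Set

noncomputable section

set_option linter.unusedSectionVars false

namespace Pool.Agent.P.MP_d483fb_an.Z.EM

variable {G : Type} [Group G] [TopologicalSpace G] [IsTopologicalGroup G] [T2Space G]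
  [LocallyCompactSpace G] [SecondCountableTopology G] [MeasurableSpace G] [BorelSpace G]
  {X : Type} [TopologicalSpace X] [T2Space X] [SecondCountableTopology X] [MeasurableSpace X]
  [BorelSpace X] [MulAction G X] [ContinuousSMul G X]
  {μ : Measure X} [IsProbabilityMeasure μ] [SMulInvariantMeasure G X μ]

/-- The average of the translates of `f`. -/
def sm (ν : Measure G) (f : X → ℝ) (x : X) : ℝ := ∫ u, f (u⁻¹ • x) ∂ν

theorem Smooth_meas {f : X → ℝ} (hf : Measurable f) :
    Measurable fun p : X × G => f (p.2⁻¹ • p.1) :=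
  hf.comp (by fun_prop : Continuous fun p : X × G => p.2⁻¹ • p.1).measurable

theorem Smooth_bd (ν : Measure G) [IsProbabilityMeasure ν] {F : G → ℝ} (h : ∀ u, |F u| ≤ 1) :
    |∫ u, F u ∂ν| ≤ 1 := by
  have := norm_integral_le_of_norm_le_const (μ := ν) (f := F) (C := 1)
    (Eventually.of_forall h)
  simpa using this

theorem Smooth_int (ν : Measure G) [IsProbabilityMeasure ν] {F : X × G → ℝ} (hF : Measurable F)
    (h : ∀ p, |F p| ≤ 1) : Integrable F (μ.prod ν) :=
  Integrable.of_bound hF.aestronglyMeasurable 1 (Eventually.of_forall h)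

theorem fLip_sm {dd : G → ℝ} {M : ℝ} {ν : Measure G} [IsProbabilityMeasure ν] (h0 : ∀ g, 0 ≤ dd g)
    (hM : 0 ≤ M) (hν : LipM dd M ν) {f : X → ℝ} (hf : Measurable f) (h1 : ∀ x, |f x| ≤ 1) :
    FLip dd (M + 1) (sm ν f) := by
  refine ⟨(Smooth_meas (G := G) hf).stronglyMeasurable.integral_prod_right'.measurable,
    fun x => (Smooth_bd ν fun u => h1 _).trans (by linarith), fun g x => ?_⟩
  have h2 := hν g (fun u => f (u⁻¹ • x))
    (hf.comp (by fun_prop : Continuous fun u : G => u⁻¹ • x).measurable) fun u => h1 _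
  simp only [mul_inv_rev, mul_smul] at h2
  exact h2.trans (mul_le_mul_of_nonneg_right (by linarith) (h0 g))

theorem integral_sm (ν : Measure G) [IsProbabilityMeasure ν] {f : X → ℝ} (hf : Measurable f)
    (h1 : ∀ x, |f x| ≤ 1) : ∫ x, sm ν f x ∂μ = ∫ x, f x ∂μ := by
  unfold sm
  rw [integral_integral_swap (f := fun x (u : G) => f (u⁻¹ • x))
    (Smooth_int (μ := μ) ν (Smooth_meas hf) fun p => h1 _)]
  simp only [integral_smul_eq_self]
  simp

theorem integral_mul_sm (ν : Measure G) [IsProbabilityMeasure ν] {f h : X → ℝ} (hf : Measurable f)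
    (h1 : ∀ x, |f x| ≤ 1) (hh : Measurable h) (h2 : ∀ x, |h x| ≤ 1) :
    ∫ y, h y * sm ν f y ∂μ = ∫ x, (∫ u, h (u • x) ∂ν) * f x ∂μ := by
  have b : ∀ a c : ℝ, |a| ≤ 1 → |c| ≤ 1 → |a * c| ≤ 1 := fun a c ha hc => by
    rw [abs_mul]
    exact mul_le_one₀ ha (abs_nonneg _) hc
  have i1 := Smooth_int (μ := μ) ν (F := fun p => h p.1 * f (p.2⁻¹ • p.1))
    ((hh.comp measurable_fst).mul (Smooth_meas hf)) fun p => b _ _ (h2 _) (h1 _)
  have i2 := Smooth_int (μ := μ) ν (F := fun p => h (p.2 • p.1) * f p.1)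
    ((hh.comp (by fun_prop : Continuous fun p : X × G => p.2 • p.1).measurable).mul
      (hf.comp measurable_fst)) fun p => b _ _ (h2 _) (h1 _)
  unfold sm
  simp only [← integral_const_mul, ← integral_mul_const]
  rw [integral_integral_swap (f := fun x (u : G) => h x * f (u⁻¹ • x)) i1,
    integral_integral_swap (f := fun x (u : G) => h (u • x) * f x) i2]
  refine integral_congr_ae (Eventually.of_forall fun u => ?_)
  have := integral_smul_eq_self (μ := μ) (fun x => h x * f (u⁻¹ • x)) (g := u)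
  simp only [inv_smul_smul] at this
  exact this.symm

theorem haar_orbit_le {l : Len G} (B : Base l X) {Q : Set G} (hQ : IsCompact Q) :
    ∃ A : ℝ≥0∞, A ≠ ∞ ∧ ∀ U : Set X, MeasurableSet U →
      Measure.haar {u | u ∈ Q ∧ u⁻¹ • B.o ∈ U} ≤ A * μ U := by
  obtain ⟨V, hV⟩ : ∃ V : Set G, V = {g | l.len g ≤ 1} := ⟨_, rfl⟩
  have hc : IsCompact V := hV ▸ l.cpt 1
  have hn : V ∈ 𝓝 (1 : G) := hV ▸ l.nhds
  obtain ⟨O, hO⟩ : ∃ O : Set X, O = (fun g : G => g • B.o) '' interior V := ⟨_, rfl⟩
  have ho : IsOpen O := hO ▸ B.opn _ isOpen_interior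
  have hpos : μ O ≠ 0 := by
    intro h0
    obtain ⟨T, hT, e⟩ := TopologicalSpace.isOpen_iUnion_countable (fun g : G => g • O)
      fun g => ho.smul g
    have e2 : ⋃ g : G, g • O = univ := by
      refine eq_univ_of_forall fun x => ?_
      obtain ⟨g, rfl⟩ := B.trans x
      refine mem_iUnion.mpr ⟨g, smul_mem_smul_set ?_⟩
      exact hO ▸ ⟨1, mem_interior_iff_mem_nhds.mpr hn, one_smul _ _⟩
    have e3 : μ (⋃ g ∈ T, g • O) = 0 :=
      (measure_biUnion_null_iff hT).mpr fun g _ => by rw [measure_smul, h0]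
    rw [e, e2, measure_univ] at e3
    exact one_ne_zero e3
  have hW : IsCompact (V * Q) := hc.mul hQ
  refine ⟨Measure.haar (V * Q) / μ O, ENNReal.div_ne_top hW.measure_lt_top.ne hpos,
    fun U hU => ?_⟩
  have hS : MeasurableSet {p : X × G | p.2 ∈ V * Q ∧ p.2⁻¹ • p.1 ∈ U} :=
    (measurable_snd hW.measurableSet).inter
      ((by fun_prop : Continuous fun p : X × G => p.2⁻¹ • p.1).measurable hU)
  have e1 : μ.prod Measure.haar {p : X × G | p.2 ∈ V * Q ∧ p.2⁻¹ • p.1 ∈ U} =
      Measure.haar (V * Q) * μ U := by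
    rw [Measure.prod_apply_symm hS, mul_comm, ← setLIntegral_const,
      ← lintegral_indicator hW.measurableSet]
    refine lintegral_congr fun u => ?_
    by_cases hu : u ∈ V * Q
    · rw [indicator_of_mem hu, ← measure_preimage_smul μ u⁻¹ U]
      congr 1
      ext x
      simp [hu]
    · rw [indicator_of_notMem hu]
      simp [hu]
  have e2 : Measure.haar {u | u ∈ Q ∧ u⁻¹ • B.o ∈ U} * μ O ≤ Measure.haar (V * Q) * μ U := by
    rw [← e1, Measure.prod_apply hS, ← setLIntegral_const]
    refine (setLIntegral_mono' ho.measurableSet fun x hx => ?_).trans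
      (setLIntegral_le_lintegral _ _)
    rw [hO] at hx
    obtain ⟨q, hq, rfl⟩ := hx
    rw [← measure_smul Measure.haar q]
    refine measure_mono ?_
    rintro _ ⟨u, ⟨h1, h2⟩, rfl⟩
    refine ⟨mul_mem_mul (interior_subset hq) h1, ?_⟩
    simpa [mul_smul] using h2
  rw [ENNReal.div_eq_inv_mul, mul_assoc, ← ENNReal.div_eq_inv_mul,
    ENNReal.le_div_iff_mul_le (Or.inl hpos) (Or.inl (measure_ne_top _ _))]
  exact e2

end Pool.Agent.P.MP_d483fb_an.Z.EM
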