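import Pool.Agent.P.MP_d483fb_an.Z.EM.Vol
import Pool.Agent.P.MP_d483fb_an.Z.EM.Smooth

/-!
Effective equidistribution from exponential mixing.
-/

open scoped Matrix Matrix.Norms.Operator RealInnerProductSpace Topology Pointwise ENNReal
open MeasureTheory Filter Set

noncomputable section

namespace Pool.Agent.P.MP_d483fb_an.Z.EM

theorem Equi0_rho {G : Type} [Group G] [TopologicalSpace G] {n : ℕ} (D : ExpData G n)
    (l : Len G) : ∃ B : ℝ, 1 ≤ B ∧ ∀ (m : ℕ) (g : G), l.len g ≤ m → ‖D.ρ g‖ ≤ B ^ (m + 1) := by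
  obtain ⟨B, hB⟩ := (l.cpt 1).exists_bound_of_continuousOn (f := fun g => D.ρ g)
    D.cont.continuousOn
  have h1 : ∀ g, l.len g ≤ 1 → ‖D.ρ g‖ ≤ max B 1 := fun g hg => (hB g hg).trans (le_max_left _ _)
  refine ⟨max B 1, le_max_right _ _, fun m => ?_⟩
  induction m with
  | zero => exact fun g hg => by simpa using h1 g (by omega)
  | succ m ih =>
    intro g hg
    obtain ⟨u, g', hu, hg', rfl⟩ := l.step g m hg
    rw [map_mul, pow_succ']
    exact (norm_mul_le _ _).trans (mul_le_mul (h1 u hu) (ih g' hg') (norm_nonneg _)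
      (zero_le_one.trans (le_max_right _ _)))

theorem Equi0_int {Y : Type} [MeasurableSpace Y] (ν : Measure Y) [IsFiniteMeasure ν] {f : Y → ℝ}
    (hf : Measurable f) {c : ℝ} (h : ∀ y, |f y| ≤ c) : Integrable f ν :=
  Integrable.of_bound hf.aestronglyMeasurable c (Eventually.of_forall h)

theorem Equi0_abs {Y : Type} [MeasurableSpace Y] (ν : Measure Y) [IsProbabilityMeasure ν]
    {f : Y → ℝ} (h : ∀ y, |f y| ≤ 1) : |∫ y, f y ∂ν| ≤ 1 := by
  simpa using norm_integral_le_of_norm_le_const (μ := ν) (f := f) (C := 1) (Eventually.of_forall h)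

variable {G : Type} [Group G] [TopologicalSpace G] [IsTopologicalGroup G] [T2Space G]
  [LocallyCompactSpace G] [SecondCountableTopology G] [MeasurableSpace G] [BorelSpace G]
  {X : Type} [TopologicalSpace X] [T2Space X] [SecondCountableTopology X] [MeasurableSpace X]
  [BorelSpace X] [MulAction G X] [ContinuousSMul G X]
  {μ : Measure X} [IsProbabilityMeasure μ] [SMulInvariantMeasure G X μ]

omit [T2Space G] [LocallyCompactSpace G] [SecondCountableTopology G] [MeasurableSpace G]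
  [BorelSpace G] [T2Space X] [SecondCountableTopology X] [MeasurableSpace X] [BorelSpace X]
  [ContinuousSMul G X] in
theorem Equi0_open {l : Len G} (B : Base l X) {W : Set G} (hW : IsOpen W) (U : Set X) :
    IsOpen (W • U) := by
  have e : W • U = (fun g : G => g • B.o) '' (W * {h | h • B.o ∈ U}) := by
    ext x
    constructor
    · rintro ⟨w, hw, y, hy, rfl⟩
      obtain ⟨h, rfl⟩ := B.trans y
      exact ⟨w * h, ⟨w, hw, h, hy, rfl⟩, mul_smul _ _ _⟩
    · rintro ⟨_, ⟨w, hw, h, hh, rfl⟩, rfl⟩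
      exact ⟨w, hw, h • B.o, hh, (mul_smul _ _ _).symm⟩
  rw [e]
  exact B.opn _ hW.mul_right

omit [IsTopologicalGroup G] [T2Space G] [LocallyCompactSpace G] [T2Space X] in
theorem Equi0_meas (ν : Measure G) [IsProbabilityMeasure ν] {ψ : X → ℝ} (hψ : Measurable ψ)
    (g : G) : Measurable fun x : X => ∫ u, ψ (g • u • x) ∂ν := by
  have h : Measurable fun p : G × X => ψ (g • p.1 • p.2) :=
    hψ.comp ((measurable_fst.smul measurable_snd).const_smul g)
  exact (h.stronglyMeasurable.integral_prod_left' (μ := ν)).measurable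

/-- The mean deviation of the averages over small translates. -/
theorem Equi0_dev {dd : G → ℝ} {M b : ℝ} {ν : Measure G} [IsProbabilityMeasure ν]
    (h0 : ∀ g, 0 ≤ dd g) (hM : 0 ≤ M) (hν : LipM dd M ν) {ψ : X → ℝ} (hψ : Measurable ψ)
    (h1 : ∀ x, |ψ x| ≤ 1) (g : G)
    (h : ∀ η, FLip dd (M + 1) η →
      |∫ x, η (g⁻¹ • x) * ψ x ∂μ - (∫ x, η x ∂μ) * ∫ x, ψ x ∂μ| ≤ b) :
    ∫ x, |∫ u, ψ (g • u • x) ∂ν - ∫ y, ψ y ∂μ| ∂μ ≤ b := by
  have hF := Equi0_meas ν hψ g
  obtain ⟨s, hs⟩ : ∃ s : X → ℝ, s = fun x =>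
      if ∫ y, ψ y ∂μ ≤ ∫ u, ψ (g • u • x) ∂ν then 1 else -1 := ⟨_, rfl⟩
  have hsm : Measurable s := by
    rw [hs]
    exact Measurable.ite (measurableSet_le measurable_const hF) measurable_const measurable_const
  have hs1 : ∀ x, |s x| ≤ 1 := fun x => by
    rw [hs]
    dsimp only
    split_ifs <;> simp
  have e1 : ∀ x, |∫ u, ψ (g • u • x) ∂ν - ∫ y, ψ y ∂μ| =
      (∫ u, ψ (g • u • x) ∂ν) * s x - s x * ∫ y, ψ y ∂μ := fun x => by
    rw [hs]
    dsimp only
    split_ifs with hx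
    · rw [abs_of_nonneg (sub_nonneg.2 hx)]
      ring
    · rw [abs_of_neg (sub_neg.2 (not_le.1 hx))]
      ring
  have e2 := integral_mul_sm (μ := μ) ν hsm hs1 (h := fun y => ψ (g • y))
    (hψ.comp (measurable_const_smul g)) fun x => h1 _
  have e3 := integral_smul_eq_self (μ := μ) (fun y => ψ (g • y) * sm ν s y) (g := g⁻¹)
  have hi : Integrable (fun x => (∫ u, ψ (g • u • x) ∂ν) * s x) μ :=
    Equi0_int μ (hF.mul hsm) (c := 1) fun x => by
      rw [abs_mul]
      exact mul_le_one₀ (Equi0_abs ν fun u => h1 _) (abs_nonneg _) (hs1 x)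
  simp only [e1]
  rw [integral_sub hi ((Equi0_int μ hsm hs1).mul_const _), integral_mul_const, ← e2, ← e3,
    ← integral_sm (μ := μ) ν hsm hs1]
  simp only [smul_inv_smul, mul_comm (ψ _)]
  exact (le_abs_self _).trans (h _ (fLip_sm h0 hM hν hsm hs1))

omit [T2Space G] [LocallyCompactSpace G] [T2Space X] [SMulInvariantMeasure G X μ] in
/-- The mass of a set under the random perturbation. -/
theorem Equi0_mass {c : ℝ} (hc : 0 ≤ c) {ν : Measure G} [IsProbabilityMeasure ν] (o : X)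
    (hle : ν.map (fun u => u⁻¹ • o) ≤ ENNReal.ofReal c • μ) {ψ : X → ℝ} (hψ : Measurable ψ)
    (h0 : ∀ x, 0 ≤ ψ x) (h1 : ∀ x, |ψ x| ≤ 1) (g : G) {U : Set X} (hU : MeasurableSet U)
    (hUψ : ∀ x ∈ U, ψ x = 1) :
    ((ν.prod ν).map fun p => p.1 * p.2⁻¹).real {δ | (g * δ) • o ∈ U} ≤
      ∫ y, ψ y ∂μ + c * ∫ x, |∫ u, ψ (g • u • x) ∂ν - ∫ y, ψ y ∂μ| ∂μ := by
  have hm : Measurable fun p : G × G => p.1 * p.2⁻¹ := measurable_fst.mul measurable_snd.inv
  have ho : Measurable fun δ : G => (g * δ) • o := (measurable_const_mul g).smul_const o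
  have hv : Measurable fun u : G => u⁻¹ • o := measurable_inv.smul_const o
  have hF := Equi0_meas ν hψ g
  have hS : MeasurableSet {δ : G | (g * δ) • o ∈ U} := ho hU
  have hD : Measurable fun x => |∫ u, ψ (g • u • x) ∂ν - ∫ y, ψ y ∂μ| :=
    (hF.sub measurable_const).abs
  have hD2 : ∀ x, |(|∫ u, ψ (g • u • x) ∂ν - ∫ y, ψ y ∂μ|)| ≤ 2 := fun x => by
    rw [abs_abs]
    linarith [abs_sub (∫ u, ψ (g • u • x) ∂ν) (∫ y, ψ y ∂μ), Equi0_abs μ h1,
      Equi0_abs ν (f := fun u => ψ (g • u • x)) fun u => h1 _]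
  have := Measure.isProbabilityMeasure_map (μ := ν.prod ν) hm.aemeasurable
  calc ((ν.prod ν).map fun p => p.1 * p.2⁻¹).real {δ | (g * δ) • o ∈ U}
      ≤ ∫ δ, ψ ((g * δ) • o) ∂((ν.prod ν).map fun p => p.1 * p.2⁻¹) := by
        rw [← integral_indicator_one hS]
        refine integral_mono ((integrable_const _).indicator hS)
          (Equi0_int _ (hψ.comp ho) fun _ => h1 _) fun δ => ?_
        by_cases hδ : δ ∈ {δ : G | (g * δ) • o ∈ U}
        · rw [indicator_of_mem hδ]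
          exact (hUψ _ hδ).ge
        · rw [indicator_of_notMem hδ]
          exact h0 _
    _ = ∫ v, ∫ u, ψ (g • u • v⁻¹ • o) ∂ν ∂ν := by
        have k1 : Measurable fun δ : G => ψ ((g * δ) • o) := hψ.comp ho
        have k2 : Measurable fun p : G × G => ψ ((g * (p.1 * p.2⁻¹)) • o) := k1.comp hm
        rw [integral_map hm.aemeasurable k1.aestronglyMeasurable,
          integral_prod_symm _ (Equi0_int _ k2 fun _ => h1 _)]
        simp only [mul_smul]
    _ ≤ ∫ v, (∫ y, ψ y ∂μ + |∫ u, ψ (g • u • v⁻¹ • o) ∂ν - ∫ y, ψ y ∂μ|) ∂ν :=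
        integral_mono (Equi0_int _ (hF.comp hv) fun v => Equi0_abs ν fun u => h1 _)
          ((integrable_const _).add (Equi0_int _ (hD.comp hv) fun v => hD2 _)) fun v => by
            linarith [le_abs_self (∫ u, ψ (g • u • v⁻¹ • o) ∂ν - ∫ y, ψ y ∂μ)]
    _ = ∫ y, ψ y ∂μ + ∫ x, |∫ u, ψ (g • u • x) ∂ν - ∫ y, ψ y ∂μ| ∂(ν.map fun u => u⁻¹ • o) := by
        have k1 : Measurable fun v : G => |∫ u, ψ (g • u • v⁻¹ • o) ∂ν - ∫ y, ψ y ∂μ| :=
          hD.comp hv
        rw [integral_add (integrable_const _) (Equi0_int _ k1 fun v => hD2 _),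
          integral_map hv.aemeasurable hD.aestronglyMeasurable]
        simp
    _ ≤ _ := by
        refine add_le_add le_rfl ((integral_mono_measure hle
          (Eventually.of_forall fun _ => abs_nonneg _)
          ((Equi0_int μ hD hD2).smul_measure ENNReal.ofReal_ne_top)).trans_eq ?_)
        rw [integral_smul_measure, ENNReal.toReal_ofReal hc, smul_eq_mul]

theorem Equi0_le {l : Len G} (B : Base l X) {Q : Set G} (hQ : IsCompact Q) :
    ∃ a : ℝ, 0 ≤ a ∧ ∀ (M : ℝ) (ν : Measure G), 0 ≤ M →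
      ν ≤ ENNReal.ofReal M • (Measure.haar : Measure G).restrict Q →
      ν.map (fun u => u⁻¹ • B.o) ≤ ENNReal.ofReal (M * a) • μ := by
  obtain ⟨A, hA, h⟩ := haar_orbit_le (μ := μ) B hQ
  refine ⟨A.toReal, ENNReal.toReal_nonneg, fun M ν hM hν => Measure.le_iff.2 fun U hU => ?_⟩
  have hv : Measurable fun u : G => u⁻¹ • B.o := measurable_inv.smul_const B.o
  rw [Measure.map_apply hv hU, Measure.smul_apply, smul_eq_mul, ENNReal.ofReal_mul hM,
    ENNReal.ofReal_toReal hA, mul_assoc]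
  refine (hν _).trans ?_
  rw [Measure.smul_apply, smul_eq_mul, Measure.restrict_apply (hv hU), inter_comm]
  exact mul_le_mul_right (h U hU) _

theorem equi_of_mix {n : ℕ} {D : ExpData G n} (Γ : Gauge D) {l : Len G} (B : Base l X)
    {Far : G → ℝ → Prop} (h : Mix Γ.dd Far μ) : Nonempty (Equi l Far B.o μ) := by
  obtain ⟨κ, hκ, C, hC, hmix⟩ := h
  obtain ⟨A, L, hA, hlip⟩ := Γ.exists_lipM
  obtain ⟨b, hb, hrho⟩ := Equi0_rho D l
  have hsm : ∀ W ∈ 𝓝 (1 : G), ∃ r, 0 < r ∧ r ≤ 1 ∧ ∀ g, Γ.dd g ≤ r → g ∈ W := fun W hW => by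
    obtain ⟨r, hr, h⟩ := Γ.basis W hW
    exact ⟨min r 1, lt_min hr one_pos, min_le_right _ _,
      fun g hg => h (hg.trans (min_le_left _ _))⟩
  obtain ⟨r₀, hr₀, hr₁, hlen⟩ := hsm _ l.nhds
  obtain ⟨a, ha, hmap⟩ := Equi0_le (μ := μ) B (Q := {g | Γ.dd g ≤ 1})
    (Γ.cpt.of_isClosed_subset (isClosed_le Γ.cont continuous_const)
      fun g (hg : Γ.dd g ≤ 1) => hg.trans one_le_two)
  have hb0 : 0 < b := one_pos.trans_le hb
  obtain ⟨r, hr⟩ : ∃ r : ℕ → ℝ, ∀ m, r m = r₀ / (2 * (b ^ (m + 1) * b ^ (m + 1))) :=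
    ⟨_, fun _ => rfl⟩
  have hrpos : ∀ m, 0 < r m := fun m => by rw [hr]; positivity
  have hrle : ∀ m, r m ≤ 1 := fun m => by
    have h1 : 1 ≤ b ^ (m + 1) := one_le_pow₀ hb
    rw [hr, div_le_one (by positivity)]
    nlinarith
  choose ν hν hνr hνl hνh using fun m => hlip (r m) (hrpos m) (hrle m)
  have hm : Measurable fun p : G × G => p.1 * p.2⁻¹ := measurable_fst.mul measurable_snd.inv
  obtain ⟨M₀, hM₀, hM⟩ : ∃ M₀ : ℝ, 0 ≤ M₀ ∧ ∀ m, A / r m ^ L = M₀ * ((b * b) ^ L) ^ m := by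
    refine ⟨A * (2 * (b * b) / r₀) ^ L, by positivity, fun m => ?_⟩
    rw [hr, ← pow_mul, mul_comm L m, pow_mul, mul_assoc A, ← mul_pow, div_eq_mul_inv A, ← inv_pow]
    congr 2
    field_simp
    ring
  have hK : 1 ≤ (b * b) ^ L := one_le_pow₀ (by nlinarith)
  generalize (b * b) ^ L = K at hM hK
  have hK0 : 0 < K := one_pos.trans_le hK
  refine ⟨{ σ := fun m => ((ν m).prod (ν m)).map fun p => p.1 * p.2⁻¹
            C := Real.log (K * K), κ := κ, κ_pos := hκ
            prob := fun m => Measure.isProbabilityMeasure_map hm.aemeasurable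
            small := fun m => ?_, eq := fun W hW h1 => ?_ }⟩
  · have h2 : ∀ᵐ δ ∂((ν m).prod (ν m)).map fun p => p.1 * p.2⁻¹, Γ.dd δ ≤ 2 * r m := by
      rw [ae_map_iff hm.aemeasurable (isClosed_le Γ.cont continuous_const).measurableSet]
      filter_upwards [measurePreserving_fst.quasiMeasurePreserving.ae (hνr m),
        measurePreserving_snd.quasiMeasurePreserving.ae (hνr m)] with p h1 h2
      linarith [Γ.mul p.1 p.2⁻¹, Γ.inv p.2]
    filter_upwards [h2] with δ hδ γ hγ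
    refine hlen _ ?_
    have h3 := Γ.conj δ γ⁻¹
    rw [inv_inv] at h3
    refine h3.trans ((mul_le_mul (mul_le_mul (hrho m γ hγ) (hrho m γ⁻¹ (by rwa [l.len_inv]))
      (norm_nonneg _) (by positivity)) hδ (Γ.nonneg δ) (by positivity)).trans_eq ?_)
    rw [hr]
    field_simp
  · obtain ⟨rW, hW0, hW1, hWs⟩ := hsm W (hW.mem_nhds h1)
    obtain ⟨νW, _, hWr, hWl, -⟩ := hlip rW hW0 hW1
    have hMW : 0 ≤ A / rW ^ L := by positivity
    refine ⟨M₀ * a * (C * (M₀ + 1) * (A / rW ^ L + 1)), fun m g t hg U hU => ?_⟩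
    have hO := (Equi0_open B hW U).measurableSet
    have hi : Measurable ((W • U).indicator (1 : X → ℝ)) := measurable_one.indicator hO
    have hi0 : ∀ x, 0 ≤ (W • U).indicator (1 : X → ℝ) x := fun x =>
      indicator_nonneg (fun _ _ => zero_le_one) x
    have hi1 : ∀ x, |(W • U).indicator (1 : X → ℝ) x| ≤ 1 := fun x => by
      rw [abs_of_nonneg (hi0 x)]
      exact indicator_le_self' (fun _ _ => zero_le_one) x
    have hψ := fLip_sm Γ.nonneg hMW hWl hi hi1
    have hψ1 : ∀ x, |sm νW ((W • U).indicator 1) x| ≤ 1 := fun x => Equi0_abs νW fun _ => hi1 _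
    have hMm : 0 ≤ A / r m ^ L := div_nonneg hA (pow_nonneg (hrpos m).le _)
    have h2 := Equi0_mass (mul_nonneg hMm ha) B.o (hmap _ (ν m) hMm (hνh m)) hψ.1
      (fun x => integral_nonneg fun _ => hi0 _) hψ1 g hU (fun x hx => by
        rw [sm, integral_congr_ae (g := fun _ => (1 : ℝ))]
        · simp
        · filter_upwards [hWr] with u hu
          exact indicator_of_mem (smul_mem_smul (hWs _ (by rwa [Γ.inv])) hx) _)
    have h3 := Equi0_dev (μ := μ) Γ.nonneg hMm (hνl m) hψ.1 hψ1 g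
      fun η hη => hmix g t hg _ _ η _ hη hψ
    have h4 := h2.trans (add_le_add le_rfl (mul_le_mul_of_nonneg_left h3 (mul_nonneg hMm ha)))
    rw [integral_sm νW hi hi1, integral_indicator_one hO, hM] at h4
    have h5 : Real.exp (Real.log (K * K) * m - κ * t) = K ^ m * K ^ m * Real.exp (-(κ * t)) := by
      rw [sub_eq_add_neg, Real.exp_add, mul_comm _ (m : ℝ), Real.exp_nat_mul,
        Real.exp_log (by positivity), mul_pow]
    have h6 : M₀ * K ^ m * a * (C * (M₀ * K ^ m + 1) * (A / rW ^ L + 1) * Real.exp (-(κ * t))) ≤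
        M₀ * a * (C * (M₀ + 1) * (A / rW ^ L + 1)) * Real.exp (Real.log (K * K) * m - κ * t) := by
      have h7 : M₀ * K ^ m + 1 ≤ (M₀ + 1) * K ^ m := by nlinarith [one_le_pow₀ (n := m) hK]
      rw [h5]
      calc _ ≤ M₀ * K ^ m * a * (C * ((M₀ + 1) * K ^ m) * (A / rW ^ L + 1) *
            Real.exp (-(κ * t))) := by gcongr
        _ = _ := by ring
    have := Measure.isProbabilityMeasure_map (μ := (ν m).prod (ν m)) hm.aemeasurable
    rw [← ofReal_measureReal (μ := μ), ← ENNReal.ofReal_add measureReal_nonneg (by positivity),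
      ← ofReal_measureReal]
    exact ENNReal.ofReal_le_ofReal (h4.trans (add_le_add le_rfl h6))

end Pool.Agent.P.MP_d483fb_an.Z.EM
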