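import Pool.Agent.P.MP_d483fb_an.Z.EM.Defs
import Pool.Agent.P.MP_d483fb_an.Z.Lie.Ex2

/-!
Existence of a gauge: the infimum of the lengths of products of exponentials.
-/

open scoped Matrix Matrix.Norms.Operator Topology
open Filter Set

noncomputable section

namespace Pool.Agent.P.MP_d483fb_an.Z.EM

variable {G : Type} [Group G] [TopologicalSpace G] {n : ℕ}

/-- `g` is a product of exponentials of total length `r`. -/
inductive Pth (D : ExpData G n) : G → ℝ → Prop
  | nil : Pth D 1 0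
  | cons {X : Mat n} {g : G} {r : ℝ} : X ∈ D.g → Pth D g r → Pth D (D.ex X * g) (‖X‖ + r)

variable {D : ExpData G n}

theorem Pth.nonneg {g : G} {r : ℝ} (h : Pth D g r) : 0 ≤ r := by
  induction h with
  | nil => exact le_rfl
  | cons _ _ ih => positivity

theorem Pth.single {X : Mat n} (hX : X ∈ D.g) : Pth D (D.ex X) ‖X‖ := by
  simpa using Pth.cons hX Pth.nil

theorem Pth.mul {g h : G} {r s : ℝ} (hg : Pth D g r) (hh : Pth D h s) : Pth D (g * h) (r + s) := by
  induction hg with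
  | nil => simpa using hh
  | cons hX _ ih => simpa only [mul_assoc, add_assoc] using Pth.cons hX ih

theorem norm_one_le_one : ‖(1 : Mat n)‖ ≤ 1 := by
  rw [← Matrix.diagonal_one, Matrix.linfty_opNorm_diagonal]
  exact (pi_norm_le_iff_of_nonneg zero_le_one).2 fun _ => by simp

variable [IsTopologicalGroup G]

theorem Pth.inv {g : G} {r : ℝ} (h : Pth D g r) : Pth D g⁻¹ r := by
  induction h with
  | nil => simpa using Pth.nil
  | @cons X g r hX _ ih =>
    have := ih.mul (Pth.single (D.g.neg_mem hX))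
    rwa [D.ex_neg hX, ← mul_inv_rev, norm_neg, add_comm] at this

theorem Pth.conj {g : G} {r : ℝ} (h : Pth D g r) (x : G) :
    ∃ r', r' ≤ ‖D.ρ x‖ * ‖D.ρ x⁻¹‖ * r ∧ Pth D (x * g * x⁻¹) r' := by
  induction h with
  | nil => exact ⟨0, by simp, by simpa using Pth.nil⟩
  | @cons X g r hX _ ih =>
    obtain ⟨r', h1, h2⟩ := ih
    refine ⟨‖D.Ad x X‖ + r', ?_, ?_⟩
    · have := D.norm_Ad_le x X
      linarith
    · have := Pth.cons (D.Ad_mem x hX) h2
      rw [← D.conj_ex x hX] at this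
      convert this using 1
      group

theorem exists_pth [PreconnectedSpace G] (g : G) : ∃ r, Pth D g r :=
  D.ex_induction (p := fun g => ∃ r, Pth D g r) one_pos ⟨0, .nil⟩
    (fun _ hX _ _ ⟨_, h⟩ => ⟨_, .cons hX h⟩) g

omit [IsTopologicalGroup G] in
theorem exists_ex_mem {W : Set G} (hW : W ∈ 𝓝 (1 : G)) :
    ∃ δ > 0, ∀ X ∈ D.g, ‖X‖ ≤ δ → D.ex X ∈ W := by
  rw [← D.ex_nhds, mem_map] at hW
  obtain ⟨ε, hε, h⟩ := (Metric.mem_nhdsWithin_iff (α := Mat n)).1 hW
  refine ⟨ε / 2, by positivity, fun X hX h1 => h ⟨?_, hX⟩⟩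
  rw [mem_ball_zero_iff]
  linarith

theorem pth_small : ∃ δ > 0, ∀ g s, Pth D g s → s ≤ δ →
    ‖D.ρ g - 1‖ ≤ 4 * s ∧ ∃ Y ∈ D.g, ‖Y‖ ≤ 8 * s ∧ D.ex Y = g := by
  have h1 := D.norm_lg_le.and D.ex_lg
  obtain ⟨V, hV, hVV⟩ := exists_nhds_one_split h1
  obtain ⟨δ1, hδ1, h2⟩ := exists_ex_mem (D := D) (inter_mem hV h1)
  obtain ⟨δ2, hδ2, h3⟩ := (Metric.mem_nhdsWithin_iff (α := Mat n)).1 D.lg_ex
  refine ⟨min (min (δ1 / 8) (δ2 / 2)) (1 / 4), by positivity, fun g s h => ?_⟩
  induction h with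
  | nil => exact fun _ => ⟨by simp, 0, D.g.zero_mem, by simp, D.ex_zero⟩
  | @cons X g r hX hg ih =>
    intro hs
    have hr := hg.nonneg
    have hXn := norm_nonneg X
    have b1 : ‖X‖ + r ≤ δ1 / 8 := hs.trans ((min_le_left _ _).trans (min_le_left _ _))
    have b2 : ‖X‖ + r ≤ δ2 / 2 := hs.trans ((min_le_left _ _).trans (min_le_right _ _))
    have b3 : ‖X‖ + r ≤ 1 / 4 := hs.trans (min_le_right _ _)
    obtain ⟨i1, Y, hY, i2, rfl⟩ := ih (le_trans (by linarith) hs)
    have c1 := h2 X hX (by linarith)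
    have c2 := h2 Y hY (by linarith)
    have c3 : D.lg (D.ex X) = X := h3 ⟨by rw [mem_ball_zero_iff]; linarith, hX⟩
    have c4 : ‖D.ρ (D.ex X) - 1‖ ≤ 2 * ‖X‖ := by
      have := c1.2.1.2
      rwa [c3] at this
    have c5 : ‖D.ρ (D.ex Y)‖ ≤ 2 := by
      have := norm_add_le (D.ρ (D.ex Y) - 1) 1
      rw [sub_add_cancel] at this
      linarith [norm_one_le_one (n := n)]
    have c6 : ‖D.ρ (D.ex X * D.ex Y) - 1‖ ≤ 4 * (‖X‖ + r) := by
      have e : D.ρ (D.ex X * D.ex Y) - 1 =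
          (D.ρ (D.ex X) - 1) * D.ρ (D.ex Y) + (D.ρ (D.ex Y) - 1) := by
        rw [map_mul]; noncomm_ring
      rw [e]
      refine (norm_add_le _ _).trans ?_
      have := (norm_mul_le (D.ρ (D.ex X) - 1) (D.ρ (D.ex Y))).trans
        (mul_le_mul c4 c5 (norm_nonneg _) (by positivity))
      linarith
    have c7 := hVV _ c1.1 _ c2.1
    exact ⟨c6, _, c7.2.1, by linarith [c7.1.1], c7.2.2⟩

/-- The infimum of the lengths. -/
def len0 (D : ExpData G n) (g : G) : ℝ := sInf {r | Pth D g r}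

omit [IsTopologicalGroup G] in
theorem len0_le {g : G} {r : ℝ} (h : Pth D g r) : len0 D g ≤ r :=
  csInf_le ⟨0, fun _ h => h.nonneg⟩ h

omit [IsTopologicalGroup G] in
theorem len0_nonneg (g : G) : 0 ≤ len0 D g := Real.sInf_nonneg fun _ h => h.nonneg

variable [PreconnectedSpace G]

theorem le_len0 {g : G} {c : ℝ} (h : ∀ r, Pth D g r → c ≤ r) : c ≤ len0 D g :=
  le_csInf (exists_pth g) h

theorem exists_pth_lt {g : G} {c : ℝ} (h : len0 D g < c) : ∃ r, Pth D g r ∧ r < c :=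
  exists_lt_of_csInf_lt (exists_pth g) h

theorem len0_mul (g h : G) : len0 D (g * h) ≤ len0 D g + len0 D h := by
  have h1 : ∀ s, Pth D h s → len0 D (g * h) - len0 D g ≤ s := fun s hs => by
    have : len0 D (g * h) - s ≤ len0 D g := le_len0 fun r hr => by
      linarith [len0_le (hr.mul hs)]
    linarith
  linarith [le_len0 h1]

theorem len0_inv (g : G) : len0 D g⁻¹ = len0 D g :=
  le_antisymm (le_len0 fun _ h => len0_le h.inv)
    (le_len0 fun _ h => len0_le (by simpa using h.inv))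

theorem len0_conj (g x : G) : len0 D (x * g * x⁻¹) ≤ ‖D.ρ x‖ * ‖D.ρ x⁻¹‖ * len0 D g := by
  set c := ‖D.ρ x‖ * ‖D.ρ x⁻¹‖
  have hc : 0 ≤ c := by positivity
  have h : ∀ r, Pth D g r → len0 D (x * g * x⁻¹) ≤ c * r := fun r hr => by
    obtain ⟨r', h1, h2⟩ := hr.conj x
    exact (len0_le h2).trans h1
  rcases hc.eq_or_lt with h0 | h0
  · obtain ⟨r, hr⟩ := exists_pth (D := D) g
    have := h r hr
    rw [← h0] at this ⊢
    simpa using this
  · rw [← div_le_iff₀' h0]
    exact le_len0 fun r hr => by rw [div_le_iff₀' h0]; exact h r hr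

omit [IsTopologicalGroup G] [PreconnectedSpace G] in
theorem len0_le_rho : ∀ᶠ g in 𝓝 (1 : G), len0 D g ≤ 2 * ‖D.ρ g - 1‖ := by
  filter_upwards [D.norm_lg_le, D.ex_lg] with g h1 h2
  have := len0_le (Pth.single h2.1)
  rw [h2.2] at this
  exact this.trans h1.1

theorem len0_cont : Continuous (len0 D) := by
  have h0 : Tendsto (len0 D) (𝓝 1) (𝓝 0) := by
    refine squeeze_zero' (Eventually.of_forall len0_nonneg) len0_le_rho ?_
    have : Continuous fun g => 2 * ‖D.ρ g - 1‖ := by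
      have := D.cont
      fun_prop
    simpa using this.tendsto 1
  refine continuous_iff_continuousAt.2 fun h => ?_
  have h1 : Tendsto (fun g => len0 D (h⁻¹ * g)) (𝓝 h) (𝓝 0) := by
    refine h0.comp ?_
    have : Continuous fun g => h⁻¹ * g := by fun_prop
    simpa using this.tendsto h
  rw [ContinuousAt, tendsto_iff_norm_sub_tendsto_zero]
  refine squeeze_zero (fun _ => norm_nonneg _) (fun g => ?_) h1
  have a1 := len0_mul (D := D) h (h⁻¹ * g)
  have a2 := len0_mul (D := D) g (h⁻¹ * g)⁻¹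
  rw [mul_inv_cancel_left] at a1
  rw [len0_inv, mul_inv_rev, inv_inv, mul_inv_cancel_left] at a2
  rw [Real.norm_eq_abs, abs_le]
  constructor <;> linarith

theorem exists_gauge (D : ExpData G n) : Nonempty (Gauge D) := by
  obtain ⟨δ, hδ, hs⟩ := pth_small (D := D)
  have hc : 0 < 4 / δ := by positivity
  refine ⟨⟨fun g => 4 / δ * len0 D g, 8 / δ, by positivity, fun g => ?_, ?_, fun g h => ?_,
    fun g => ?_, fun X hX => ?_, fun g h => ?_, continuous_const.mul len0_cont, ?_,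
    fun W hW => ?_, ?_⟩⟩
  · exact mul_nonneg hc.le (len0_nonneg g)
  · rw [le_antisymm (len0_le Pth.nil) (len0_nonneg 1), mul_zero]
  · rw [← mul_add]
    exact mul_le_mul_of_nonneg_left (len0_mul g h) hc.le
  · rw [len0_inv]
  · refine mul_le_mul ?_ (len0_le (Pth.single hX)) (len0_nonneg _) (by positivity)
    gcongr; norm_num
  · have := len0_conj (D := D) g h⁻¹
    rw [inv_inv] at this
    calc _ ≤ 4 / δ * (‖D.ρ h⁻¹‖ * ‖D.ρ h‖ * len0 D g) := mul_le_mul_of_nonneg_left this hc.le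
      _ = _ := by ring
  · refine (D.ex_ball_compact (8 * δ)).of_isClosed_subset
      (isClosed_le (continuous_const.mul len0_cont) continuous_const) fun g hg => ?_
    have h1 : len0 D g < δ := by
      have : 4 / δ * len0 D g ≤ 2 := hg
      rw [div_mul_eq_mul_div, div_le_iff₀ hδ] at this
      linarith
    obtain ⟨r, hr, h2⟩ := exists_pth_lt h1
    obtain ⟨-, Y, hY, h3, h4⟩ := hs g r hr h2.le
    exact ⟨Y, ⟨hY, by linarith⟩, h4⟩
  · obtain ⟨ε, hε, hW⟩ := exists_ex_mem (D := D) hW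
    have hm : 0 < min δ (ε / 8) := by positivity
    refine ⟨4 / δ * (min δ (ε / 8) / 2), by positivity, fun g hg => ?_⟩
    have h1 : len0 D g < min δ (ε / 8) := by
      have : len0 D g ≤ min δ (ε / 8) / 2 := le_of_mul_le_mul_left hg hc
      linarith
    obtain ⟨r, hr, h2⟩ := exists_pth_lt h1
    obtain ⟨-, Y, hY, h3, rfl⟩ := hs g r hr (h2.le.trans (min_le_left _ _))
    exact hW Y hY (by linarith [min_le_right δ (ε / 8)])
  · filter_upwards [len0_le_rho (D := D)] with g hg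
    calc _ ≤ 4 / δ * (2 * ‖D.ρ g - 1‖) := mul_le_mul_of_nonneg_left hg hc.le
      _ = _ := by ring

end Pool.Agent.P.MP_d483fb_an.Z.EM
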