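import Pool.Agent.P.MP_d483fb_an.Z.EM.Defs

/-!
The Koopman representation of a transitive action with an invariant probability measure.
-/

open scoped Matrix Matrix.Norms.Operator RealInnerProductSpace Topology Pointwise ENNReal
open MeasureTheory Filter Set

noncomputable section

namespace Pool.Agent.P.MP_d483fb_an.Z.EM

variable {G : Type} [Group G] [TopologicalSpace G] [IsTopologicalGroup G] [T2Space G]
  [LocallyCompactSpace G] [SecondCountableTopology G] [MeasurableSpace G] [BorelSpace G]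
  {X : Type} [TopologicalSpace X] [T2Space X] [SecondCountableTopology X] [MeasurableSpace X]
  [BorelSpace X] [MulAction G X] [ContinuousSMul G X]
  {μ : Measure X} [IsProbabilityMeasure μ] [SMulInvariantMeasure G X μ]

omit [T2Space G] in
theorem koop_cont {l : Len G} (B : Base l X) (f : Lp ℝ 2 μ) :
    Continuous fun g => koop G μ g f := by
  have hq : IsOpenQuotientMap fun g : G => g • B.o :=
    ⟨fun x => B.trans x, continuous_id.smul continuous_const, B.opn⟩
  have : LocallyCompactSpace X := hq.locallyCompactSpace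
  have : TopologicalSpace.MetrizableSpace X := inferInstance
  have : μ.InnerRegularCompactLTTop := inferInstance
  let Φ : C(G × X, X) := ⟨fun p => p.1⁻¹ • p.2, continuous_fst.inv.smul continuous_snd⟩
  exact Continuous.compMeasurePreservingLp (f := fun _ : G => f) (g := fun g => Φ.curry g)
    continuous_const Φ.curry.continuous (fun g => measurePreserving_smul g⁻¹ μ)
    ENNReal.ofNat_ne_top

theorem ae_const_of_fix (htr : ∀ x y : X, ∃ g : G, g • x = y) {f : Lp ℝ 2 μ}
    (hf : ∀ g, koop G μ g f = f) : ∃ c : ℝ, f =ᵐ[μ] fun _ => c := by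
  have hm : Measurable (f : X → ℝ) := (Lp.stronglyMeasurable f).measurable
  have h1 : ∀ g : G, ∀ᵐ x ∂μ, f (g⁻¹ • x) = f x := by
    intro g
    have h := koop_ae μ g f
    rw [hf g] at h
    exact h.mono fun x hx => hx.symm
  have hc : Measurable fun p : G × X => p.1⁻¹ • p.2 :=
    (continuous_fst.inv.smul continuous_snd).measurable
  have h2 : ∀ᵐ x ∂μ, ∀ᵐ g ∂(Measure.haar : Measure G), f (g⁻¹ • x) = f x := by
    rw [← Measure.ae_ae_comm (p := fun (g : G) (x : X) => f (g⁻¹ • x) = f x)]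
    · exact ae_of_all _ h1
    · exact measurableSet_eq_fun (hm.comp hc) (hm.comp measurable_snd)
  obtain ⟨a, ha⟩ := h2.exists
  refine ⟨f a, h2.mono fun y hy => ?_⟩
  obtain ⟨h, rfl⟩ := htr a y
  have h3 := (measurePreserving_mul_left (Measure.haar : Measure G) h⁻¹).quasiMeasurePreserving.ae
    ha
  obtain ⟨g, hg1, hg2⟩ := (hy.and h3).exists
  rw [← hg1, ← hg2]
  simp [mul_smul]

omit [TopologicalSpace X] [T2Space X] [SecondCountableTopology X] [BorelSpace X] in
lemma flip_memLp {G : Type} [Group G] [MulAction G X] {dd : G → ℝ} {M : ℝ} {f : X → ℝ}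
    (hf : FLip dd M f) : MemLp f 2 μ :=
  MemLp.of_bound hf.1.aestronglyMeasurable M (ae_of_all _ fun x => hf.2.1 x)

omit [TopologicalSpace X] [T2Space X] [SecondCountableTopology X] [BorelSpace X] in
lemma norm_le_of_ae {F : Lp ℝ 2 μ} {M : ℝ} (h : ∀ᵐ x ∂μ, |F x| ≤ M) : ‖F‖ ≤ M := by
  obtain ⟨x, hx⟩ := h.exists
  have h0 : 0 ≤ M := (abs_nonneg _).trans hx
  have h1 := Lp.norm_le_of_ae_bound (f := F) h0 h
  simpa [measureUnivNNReal] using h1

lemma koop_toLp_ae {f : X → ℝ} (hf : MemLp f 2 μ) (g : G) :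
    koop G μ g (hf.toLp f) =ᵐ[μ] fun x => f (g⁻¹ • x) :=
  (koop_ae μ g _).trans
    ((measurePreserving_smul g⁻¹ μ).quasiMeasurePreserving.ae_eq_comp hf.coeFn_toLp)

lemma flip_glip {dd : G → ℝ} {M : ℝ} {f : X → ℝ} (hf : FLip dd M f) :
    GLip dd (koop G μ) M ((flip_memLp hf).toLp f) := by
  refine ⟨norm_le_of_ae ?_, fun g => norm_le_of_ae ?_⟩
  · filter_upwards [(flip_memLp (μ := μ) hf).coeFn_toLp] with x hx
    rw [hx]
    exact hf.2.1 x
  · filter_upwards [(flip_memLp (μ := μ) hf).coeFn_toLp,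
      koop_toLp_ae (flip_memLp (μ := μ) hf) g,
      Lp.coeFn_sub (koop G μ g ((flip_memLp hf).toLp f)) ((flip_memLp hf).toLp f)]
      with x h1 h2 h3
    rw [h3, Pi.sub_apply, h1, h2]
    exact hf.2.2 g x

omit [TopologicalSpace X] [T2Space X] [SecondCountableTopology X] [BorelSpace X]
  [IsProbabilityMeasure μ] in
lemma inner_of_ae {F F' : Lp ℝ 2 μ} {f f' : X → ℝ} (h : F =ᵐ[μ] f) (h' : F' =ᵐ[μ] f') :
    ⟪F, F'⟫ = ∫ x, f x * f' x ∂μ := by
  rw [L2.inner_def]
  refine integral_congr_ae ?_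
  filter_upwards [h, h'] with x hx hx'
  rw [hx, hx']
  simp [mul_comm]

lemma prj_top_ae (htr : ∀ x y : X, ∃ g : G, g • x = y) (F : Lp ℝ 2 μ) :
    prj (koop G μ) ⊤ F =ᵐ[μ] fun _ => ∫ x, F x ∂μ := by
  have hc : ∀ c : ℝ, (Lp.const 2 μ c : Lp ℝ 2 μ) =ᵐ[μ] fun _ => c := fun c =>
    Lp.coeFn_const 2 μ c
  have hi : Integrable F μ := (Lp.memLp F).integrable one_le_two
  have h : prj (koop G μ) ⊤ F = Lp.const 2 μ (∫ x, F x ∂μ) := by
    refine prj_eq_of (fun g _ => ?_) fun w hw => ?_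
    · refine Lp.ext ((koop_ae μ g _).trans ?_)
      refine EventuallyEq.trans ?_ (hc _).symm
      exact (measurePreserving_smul g⁻¹ μ).quasiMeasurePreserving.ae_eq_comp (hc _)
    · obtain ⟨c, hw'⟩ := ae_const_of_fix htr fun g => hw g (Subgroup.mem_top g)
      rw [inner_sub_left, inner_of_ae EventuallyEq.rfl hw', inner_of_ae (hc _) hw',
        integral_mul_const]
      simp
  rw [h]
  exact hc _

theorem mix_of_mixH (htr : ∀ x y : X, ∃ g : G, g • x = y) {dd : G → ℝ} {Far : G → ℝ → Prop}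
    (h : MixH dd Far (koop G μ)) : Mix dd Far μ := by
  obtain ⟨κ, hκ, C, hC, h⟩ := h
  refine ⟨κ, hκ, C, hC, fun g t hg M M' f f' hf hf' => ?_⟩
  have h1 := h g t hg M M' _ _ (flip_glip hf) (flip_glip hf')
  rw [inner_of_ae (koop_toLp_ae (flip_memLp hf) g) (flip_memLp hf').coeFn_toLp,
    inner_of_ae (prj_top_ae htr _) (prj_top_ae htr _),
    integral_congr_ae (flip_memLp hf).coeFn_toLp,
    integral_congr_ae (flip_memLp hf').coeFn_toLp] at h1
  simpa using h1

theorem ergodic_of_fix (htr : ∀ x y : X, ∃ g : G, g • x = y) {a : G}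
    (h : ∀ f : Lp ℝ 2 μ, koop G μ a f = f → ∀ g, koop G μ g f = f) :
    Ergodic (fun x : X => a • x) μ := by
  refine ⟨measurePreserving_smul a μ, ⟨fun s hs hinv => ?_⟩⟩
  have hmem : ∀ x, a⁻¹ • x ∈ s ↔ x ∈ s := by
    intro x
    have h1 : a⁻¹ • x ∈ (fun x : X => a • x) ⁻¹' s ↔ a⁻¹ • x ∈ s := by rw [hinv]
    rw [← h1]
    simp
  have hL : MemLp (s.indicator fun _ => (1 : ℝ)) 2 μ := (memLp_const 1).indicator hs
  have hfix : koop G μ a (hL.toLp _) = hL.toLp _ := by
    refine Lp.ext ((koop_toLp_ae hL a).trans ?_)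
    refine EventuallyEq.trans (ae_of_all _ fun x => ?_) hL.coeFn_toLp.symm
    by_cases hx : x ∈ s
    · simp [hx, (hmem x).2 hx]
    · simp [hx, mt (hmem x).1 hx]
  obtain ⟨c, hc⟩ := ae_const_of_fix htr (h _ hfix)
  have h2 := hL.coeFn_toLp.symm.trans hc
  rw [eventuallyConst_set]
  by_cases hc1 : c = 1
  · refine Or.inl (h2.mono fun x hx => ?_)
    by_contra hxs
    simp [hxs, hc1] at hx
  · refine Or.inr (h2.mono fun x hx hxs => hc1 ?_)
    simpa [hxs] using hx.symm

end Pool.Agent.P.MP_d483fb_an.Z.EM
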