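import Pool.Agent.P.MP_d483fb_an.Z.EM.Inst2
import Pool.Agent.P.MP_d483fb_an.Z.EM.All
import Pool.Agent.P.MP_d483fb_an.Z.EM.Gauge
import Pool.Agent.P.MP_d483fb_an.Z.EM.Koop
import Pool.Agent.P.MP_d483fb_an.Z.EM.Equi0
import Pool.Agent.P.MP_d483fb_an.Z.ST.Main

/-!
Exponential mixing, effective equidistribution and ergodicity for groups in standard form.
-/

open scoped Matrix Matrix.Norms.Operator InnerProductSpace RealInnerProductSpace Topology
open MeasureTheory Filter Set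

noncomputable section

namespace Pool.Agent.P.MP_d483fb_an.Z

open _root_.Pool.Agent.P.MP_d483fb_an.Z.ST EM

variable {G : Type} [Group G] [TopologicalSpace G] [IsTopologicalGroup G] [PreconnectedSpace G]
  {n k : ℕ}

/-- The averaging data at all longest roots. -/
theorem Std.exists_longData (D : Std G n k) (Γ : Gauge D.toExpData) {sz : G → ℝ}
    (hs : SzOK D.toExpData sz) : ∃ T : {b // Long D b} → Data sz Γ.dd,
      (∀ b (S : Subgroup G), IsClosed (S : Set G) →
        (∀ g, Contr Γ.dd (T b).a g ∨ Contr Γ.dd (T b).a⁻¹ g → g ∈ S) → D.grp (D.fac b) ≤ S) ∧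
      ∀ b, ∃ z ∈ D.gr b.1, ∀ t : ℝ, (T b).e1 ![t, 0, 0] = D.ex (t • z) := by
  choose L hz hh using fun b : {b // Long D b} => b.2.lieData
  refine ⟨fun b => (L b).data Γ hs, fun b S hS h => ?_, fun b => ⟨_, hz b, (L b).data_e1 Γ hs⟩⟩
  have h0 : ⟪b.1, b.1⟫ ≠ 0 := inner_self_ne_zero.2 (D.root_ne_zero b.2.1)
  have e : ((L b).data Γ hs).a = D.a (Real.log 2 • (2 / ⟪b.1, b.1⟫) • b.1) := by
    rw [LieData.data_a, hh, Std.a, map_smul D.dg (Real.log 2)]
  rw [e] at h
  refine fac_le_of_contr Γ b.2.1 ?_ S hS h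
  rw [real_inner_smul_right, real_inner_smul_right, div_mul_cancel₀ _ h0]
  exact mul_ne_zero (Real.log_pos one_lt_two).ne' two_ne_zero

omit [IsTopologicalGroup G] [PreconnectedSpace G] in
theorem Std.finite_long (D : Std G n k) : Finite {b // Long D b} :=
  (D.roots.finite_toSet.subset fun _ hb => hb.1).to_subtype

theorem Std.eq_top_of_fac (D : Std G n k) {J : Set (Euc k)}
    (hJ : ∀ γ ∈ D.roots, ∃ b ∈ J, D.Conn γ b) {S : Subgroup G}
    (h : ∀ b ∈ J, D.grp (D.fac b) ≤ S) : S = ⊤ :=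
  D.eq_top_of_roots fun β hβ _ hX => by
    obtain ⟨b, hb, hc⟩ := hJ β hβ
    exact h b hb (ex_mem_fac hβ (D.conn_symm hc) hX)

omit [PreconnectedSpace G] in
theorem Std.dd_conj_K (D : Std G n k) (Γ : Gauge D.toExpData) {x : G} (hx : x ∈ D.K) (g : G) :
    Γ.dd (x⁻¹ * g * x) ≤ ((n : ℝ) ^ 2 + 1) * Γ.dd g := by
  refine (Γ.conj g x).trans (mul_le_mul_of_nonneg_right ?_ (Γ.nonneg g))
  have := mul_le_mul (D.norm_ρ_K (D.K.inv_mem hx)) (D.norm_ρ_K hx) (norm_nonneg _) (Nat.cast_nonneg n)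
  nlinarith

variable {H : Type*} [NormedAddCommGroup H] [InnerProductSpace ℝ H] [CompleteSpace H]

/-- Exponential decay of matrix coefficients of Lipschitz vectors. -/
theorem Std.mixH (D : Std G n k) (Γ : Gauge D.toExpData) {π : G →* (H →L[ℝ] H)}
    (hπ : ∀ g v, ‖π g v‖ = ‖v‖) (hc : ∀ v, Continuous fun g => π g v) : MixH Γ.dd D.Far π := by
  have hs := szOK_rho D.toExpData
  obtain ⟨T, hN, hz⟩ := D.exists_longData Γ hs
  choose z hz hT using hz
  have := D.finite_long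
  refine mixH_of_data (size_of Γ hs) hπ hc T (fun b => D.grp (D.fac b))
    (fun b => D.grp_fac_normal b) hN (fun b t => ?_) (fun b => ?_) (c := (n : ℝ) ^ 2 + 1)
    (e := 1 / 2) (le_add_of_nonneg_left (sq_nonneg _)) one_half_pos ?_
  · rw [hT]
    exact ex_mem_fac b.2.1 .refl (Submodule.smul_mem _ t (hz b))
  · simp only [hT]
    exact lipAt_ex Γ (D.gr_le _ (hz b))
  · rintro g t ⟨k₁, h₁, k₂, h₂, s, rfl, hF⟩
    refine ⟨k₁, D.a s, k₂, rfl, fun x => ?_, D.dd_conj_K Γ h₂, {b | 1 / 2 * t ≤ ⟪b.1, s⟫},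
      fun S _ h => ?_, fun b hb => ⟨_, hb, fun u => ?_⟩⟩
    · simpa using D.dd_conj_K Γ (D.K.inv_mem h₁) x
    · refine D.eq_top_of_fac (J := {b | Long D b ∧ 1 / 2 * t ≤ ⟪b, s⟫}) (fun γ hγ => ?_)
        fun b hb => h ⟨b, hb.1⟩ hb.2
      obtain ⟨β, hβ, hc, ht⟩ := hF γ hγ
      obtain ⟨b, hb, hc', hi⟩ := exists_long_ge hβ s
      exact ⟨b, ⟨hb, by linarith⟩, hc.trans hc'⟩
    · have := D.a_conj_ex (-s) (Submodule.smul_mem _ u (hz b))
      rwa [D.a_neg, inv_inv, inner_neg_right, smul_smul, ← hT, ← hT] at this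

/-- Invariant vectors for representations of subexponential growth. -/
theorem Std.strongT [LocallyCompactSpace G] (D : Std G n k) {sz : G → ℝ}
    (hs : SzOK D.toExpData sz) {π : G →* (H →L[ℝ] H)} (hπ : Grow sz π) (ξ : H) :
    ∃ ζ, (∀ g, π g ζ = ζ) ∧ App sz π ξ ζ := by
  obtain ⟨Γ⟩ := exists_gauge D.toExpData
  obtain ⟨T, hN, -⟩ := D.exists_longData Γ hs
  have := D.finite_long
  have hcl : IsClosed {g | Γ.dd g ≤ 2} := isClosed_le Γ.cont continuous_const
  have hsub : tsupport (fun g => max 0 (1 - Γ.dd g)) ⊆ {g | Γ.dd g ≤ 2} := by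
    refine closure_minimal (fun g hg => ?_) hcl
    by_contra h
    have : (2 : ℝ) < Γ.dd g := not_le.1 h
    exact hg (max_eq_left (by linarith))
  refine ST.strongT (size_of Γ hs) hπ T (fun b => D.grp (D.fac b)) (fun b => D.grp_fac_normal b) hN
    (fun S _ h => D.eq_top_of_fac (J := {b | Long D b}) (fun γ hγ => exists_long hγ)
      fun b hb => h ⟨b, hb⟩) (fun g => max 0 (1 - Γ.dd g))
    (continuous_const.max (continuous_const.sub Γ.cont))
    (Γ.cpt.of_isClosed_subset (isClosed_tsupport _) hsub) (fun g => le_max_left _ _)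
    (by simp [Γ.one]) ⟨1, fun g h _ => ?_⟩ ?_ ξ
  · rw [one_mul, max_comm 0, max_comm 0]
    refine (abs_max_sub_max_le_abs _ _ _).trans (abs_le.2 ⟨?_, ?_⟩)
    · have := Γ.mul g⁻¹ h
      rw [Γ.inv] at this
      linarith
    · have := Γ.mul g (g⁻¹ * h)
      rw [mul_inv_cancel_left] at this
      linarith
  · obtain ⟨C, hC⟩ := hs.bdd _ Γ.cpt
    exact ⟨C, fun g hg => hC g (hsub hg)⟩

omit [CompleteSpace H] in
/-- A vector fixed by a Cartan element with nontrivial components is fixed by the group. -/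
theorem Std.fix_of_full (D : Std G n k) {π : G →* (H →L[ℝ] H)} (hπ : ∀ g v, ‖π g v‖ = ‖v‖)
    (hc : ∀ v, Continuous fun g => π g v) {s : Euc k} (hs : D.Full s) {v : H}
    (hv : π (D.a s) v = v) (g : G) : π g v = v := by
  have key : ∀ s : Euc k, D.a s ∈ stabV π v → ∀ β, 0 < ⟪β, s⟫ → ∀ X ∈ D.gr β,
      D.ex X ∈ stabV π v := by
    intro s ha β hβ X hX
    have h1 := ((hc v).tendsto 1).comp ((D.tendsto_conj_ex (s := s)
      (D.gr_le_grS (S := {γ | 0 < ⟪γ, s⟫}) hβ hX)).comp tendsto_natCast_atTop_atTop)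
    have h2 := (h1.sub_const v).norm
    simp only [map_one, one_apply_eq_self, sub_self, norm_zero] at h2
    have h3 : ∀ m : ℕ, ‖π (D.a (-((m : ℝ) • s)) * D.ex X * D.a ((m : ℝ) • s)) v - v‖ =
        ‖π (D.ex X) v - v‖ := by
      intro m
      have hm : π (D.a s ^ m) v = v := (stabV π v).pow_mem ha m
      rw [D.a_neg, D.a_nsmul, pi_mul, pi_mul, hm, ← hπ (D.a s ^ m), map_sub, pi_apply_inv, hm]
    have h4 : Tendsto (fun _ : ℕ => ‖π (D.ex X) v - v‖) atTop (𝓝 0) := h2.congr h3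
    exact sub_eq_zero.1 (norm_eq_zero.1 (tendsto_nhds_unique tendsto_const_nhds h4))
  have htop : stabV π v = ⊤ := D.eq_top_of_full hs fun β _ h X hX => by
    rcases h.lt_or_gt with h | h
    · refine key (-s) ?_ β (by rw [inner_neg_right]; linarith) X hX
      rw [D.a_neg]
      exact (stabV π v).inv_mem hv
    · exact key s hv β h X hX
  exact mem_stabV.1 (htop ▸ Subgroup.mem_top g)

end Pool.Agent.P.MP_d483fb_an.Z

namespace Pool.Agent.P.MP_d483fb_an.Z

open EM

variable {G : Type} [Group G] [TopologicalSpace G] [IsTopologicalGroup G] [T2Space G]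
  [LocallyCompactSpace G] [SecondCountableTopology G] [MeasurableSpace G] [BorelSpace G]
  {X : Type} [TopologicalSpace X] [T2Space X] [SecondCountableTopology X] [MeasurableSpace X]
  [BorelSpace X] [MulAction G X] [ContinuousSMul G X]
  {μ : Measure X} [IsProbabilityMeasure μ] [SMulInvariantMeasure G X μ]

omit [IsTopologicalGroup G] [T2Space G] [LocallyCompactSpace G] [SecondCountableTopology G]
  [MeasurableSpace G] [BorelSpace G] [T2Space X] [SecondCountableTopology X] [MeasurableSpace X]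
  [BorelSpace X] [ContinuousSMul G X] in
theorem Base.trans' {l : Len G} (B : Base l X) (x y : X) : ∃ g : G, g • x = y := by
  obtain ⟨g, rfl⟩ := B.trans x
  obtain ⟨h, rfl⟩ := B.trans y
  exact ⟨h * g⁻¹, by rw [← mul_smul, inv_mul_cancel_right]⟩

theorem Std.mix [ConnectedSpace G] {n k : ℕ} (D : Std G n k) (Γ : Gauge D.toExpData) {l : Len G}
    (B : Base l X) : Mix Γ.dd D.Far μ :=
  mix_of_mixH B.trans' (D.mixH Γ (koop_norm μ) (koop_cont B))

theorem Std.equi [ConnectedSpace G] {n k : ℕ} (D : Std G n k) (l : Len G) (B : Base l X) :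
    Nonempty (Equi l D.Far B.o μ) := by
  obtain ⟨Γ⟩ := exists_gauge D.toExpData
  exact equi_of_mix Γ B (D.mix Γ B)

theorem Std.ergodic_full [ConnectedSpace G] {n k : ℕ} (D : Std G n k) (l : Len G) (B : Base l X)
    {s : Euc k} (hs : D.Full s) : Ergodic (fun x : X => D.a s • x) μ :=
  ergodic_of_fix B.trans' fun _ hf g => D.fix_of_full (koop_norm μ) (koop_cont B) hs hf g

end Pool.Agent.P.MP_d483fb_an.Z
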