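import Pool.Agent.P.MP_d483fb_an.Z.EM.Defs
import Pool.Agent.P.MP_d483fb_an.Z.Lie.Ex2
import Pool.Agent.P.MP_d483fb_an.Z.ST.Defs

/-!
From bracket relations in the Lie algebra to the group relations used by the averaging theorem.
-/

open scoped Matrix Matrix.Norms.Operator Topology
open Filter Set NormedSpace

attribute [local instance 100] LieRing.ofAssociativeRing

noncomputable section

namespace Pool.Agent.P.MP_d483fb_an.Z.EM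

open _root_.Pool.Agent.P.MP_d483fb_an.Z.ST

variable {G : Type} [Group G] [TopologicalSpace G] {n : ℕ} {D : ExpData G n} {sz : G → ℝ}

theorem size_of (Γ : Gauge D) (hs : SzOK D sz) : Size sz Γ.dd := by
  refine ⟨hs.one_le, hs.mul, hs.inv, Γ.nonneg, fun g h => (Γ.conj g h).trans ?_, ?_⟩
  · have h1 := hs.rho h
    have h2 := hs.rho h⁻¹
    rw [hs.inv] at h2
    rw [sq]
    exact mul_le_mul_of_nonneg_right
      (mul_le_mul h2 h1 (norm_nonneg _) (zero_le_one.trans (hs.one_le h))) (Γ.nonneg g)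
  · obtain ⟨C, hC⟩ := hs.bdd _ Γ.cpt
    exact ⟨C, fun g hg => hC g (hg.trans one_le_two)⟩

theorem szOK_rho (D : ExpData G n) [IsTopologicalGroup G] :
    SzOK D fun g => (1 + ‖D.ρ g‖) * (1 + ‖D.ρ g⁻¹‖) := by
  have hm : ∀ g h, 1 + ‖D.ρ (g * h)‖ ≤ (1 + ‖D.ρ g‖) * (1 + ‖D.ρ h‖) := fun g h => by
    rw [map_mul]
    nlinarith [norm_mul_le (D.ρ g) (D.ρ h), norm_nonneg (D.ρ g), norm_nonneg (D.ρ h)]
  refine ⟨fun g => ?_, fun g h => ?_, fun g => ?_, fun K hK => ?_, fun g => ?_⟩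
  · nlinarith [norm_nonneg (D.ρ g), norm_nonneg (D.ρ g⁻¹)]
  · rw [mul_inv_rev]
    calc _ ≤ ((1 + ‖D.ρ g‖) * (1 + ‖D.ρ h‖)) * ((1 + ‖D.ρ h⁻¹‖) * (1 + ‖D.ρ g⁻¹‖)) :=
          mul_le_mul (hm _ _) (hm _ _) (by positivity) (by positivity)
      _ = _ := by ring
  · rw [inv_inv, mul_comm]
  · have hc : Continuous fun g => (1 + ‖D.ρ g‖) * (1 + ‖D.ρ g⁻¹‖) := by
      have := D.cont
      fun_prop
    obtain ⟨C, hC⟩ := hK.bddAbove_image hc.continuousOn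
    exact ⟨C, fun g hg => hC ⟨g, hg, rfl⟩⟩
  · nlinarith [norm_nonneg (D.ρ g), norm_nonneg (D.ρ g⁻¹)]

theorem lipAt_ex (Γ : Gauge D) {X : Mat n} (hX : X ∈ D.g) :
    LipAt Γ.dd fun s : ℝ => D.ex (s • X) := by
  refine ⟨Γ.c * ‖X‖, fun s _ => (Γ.ex_le _ (D.g.smul_mem s hX)).trans_eq ?_⟩
  rw [norm_smul, Real.norm_eq_abs]
  ring

theorem SzOK.pow (hs : SzOK D sz) (g : G) (m : ℕ) : sz (g ^ m) ≤ sz 1 * sz g ^ m := by
  induction m with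
  | zero => simp
  | succ m ih =>
    rw [pow_succ, pow_succ, ← mul_assoc]
    exact (hs.mul _ _).trans (mul_le_mul_of_nonneg_right ih (zero_le_one.trans (hs.one_le g)))

variable [IsTopologicalGroup G]

theorem Ad_ex_eigen {X Y : Mat n} (hX : X ∈ D.g) {c : ℝ} (h : ⁅X, Y⁆ = c • Y) :
    D.Ad (D.ex X) Y = Real.exp c • Y := (D.Ad_ex hX Y).trans (conj_eigen (A := Mat n) h)

theorem Ad_ex_nil3 {X Y : Mat n} (hX : X ∈ D.g) (h : ⁅X, ⁅X, ⁅X, Y⁆⁆⁆ = 0) :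
    D.Ad (D.ex X) Y = Y + ⁅X, Y⁆ + (1 / 2 : ℝ) • ⁅X, ⁅X, Y⁆⁆ :=
  (D.Ad_ex hX Y).trans (conj_nil3 (A := Mat n) h)

theorem conj_ex_eigen {h X : Mat n} (hh : h ∈ D.g) (hX : X ∈ D.g) {c : ℝ} (hc : ⁅h, X⁆ = c • X)
    (τ t : ℝ) : D.ex (τ • h) * D.ex (t • X) * (D.ex (τ • h))⁻¹ =
      D.ex ((Real.exp (τ * c) * t) • X) := by
  rw [D.conj_ex _ (D.g.smul_mem t hX), 
    Ad_ex_eigen (D.g.smul_mem τ hh) (c := τ * c) (by rw [smul_lie, lie_smul, hc, smul_smul, smul_smul, smul_smul,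
      mul_right_comm]), smul_smul]

/-- `X` is an eigenvector of an inner derivation with a nonzero eigenvalue. -/
def Eig (D : ExpData G n) (X : Mat n) : Prop :=
  X ∈ D.g ∧ ∃ h ∈ D.g, ∃ c : ℝ, c ≠ 0 ∧ ⁅h, X⁆ = c • X

theorem poly_ex (hs : SzOK D sz) {X : Mat n} (hX : Eig D X) :
    ∃ (C : ℝ) (d : ℕ), 0 ≤ C ∧ ∀ t : ℝ, sz (D.ex (t • X)) ≤ C * (1 + |t|) ^ d := by
  obtain ⟨hX, h, hh, c, hc0, hc⟩ := hX
  set b := D.ex ((Real.log 2 / c) • h) with hb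
  obtain ⟨C, hC⟩ := hs.bdd _ ((isCompact_Icc (a := (-1 : ℝ)) (b := 1)).image (D.ex_smul_cont hX))
  have hC0 : 0 ≤ C := (zero_le_one.trans (hs.one_le _)).trans
    (hC _ ⟨0, ⟨by norm_num, by norm_num⟩, rfl⟩)
  obtain ⟨d, hd⟩ := pow_unbounded_of_one_lt (sz b ^ 2) (one_lt_two (α := ℝ))
  have h1 := zero_le_one.trans (hs.one_le 1)
  have hb0 := zero_le_one.trans (hs.one_le b)
  refine ⟨sz 1 ^ 2 * C * 2 ^ d, d, by positivity, fun t => ?_⟩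
  obtain ⟨m, hm1, hm2⟩ := exists_nat_pow_near (x := 1 + |t|) (y := 2)
    (le_add_of_nonneg_right (abs_nonneg t)) one_lt_two
  have e1 : D.ex ((((m + 1 : ℕ) : ℝ) * (Real.log 2 / c)) • h) = b ^ (m + 1) := by
    rw [mul_smul, D.ex_nsmul (D.g.smul_mem _ hh)]
  have e2 := conj_ex_eigen hh hX hc (((m + 1 : ℕ) : ℝ) * (Real.log 2 / c)) (t / 2 ^ (m + 1))
  rw [e1, mul_assoc _ _ c, div_mul_cancel₀ _ hc0, Real.exp_nat_mul, Real.exp_log two_pos,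
    mul_div_cancel₀ _ (by positivity)] at e2
  have hu : sz (D.ex ((t / 2 ^ (m + 1)) • X)) ≤ C := by
    refine hC _ ⟨_, ?_, rfl⟩
    rw [mem_Icc, ← abs_le, abs_div, abs_of_pos (by positivity : (0 : ℝ) < 2 ^ (m + 1)),
      div_le_one (by positivity)]
    linarith
  have hp := hs.pow b (m + 1)
  have hp0 := zero_le_one.trans (hs.one_le (b ^ (m + 1)))
  have h2 : (sz b ^ 2) ^ (m + 1) ≤ 2 ^ d * (1 + |t|) ^ d := by
    calc _ ≤ ((2 : ℝ) ^ d) ^ (m + 1) := pow_le_pow_left₀ (by positivity) hd.le _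
      _ = (2 * 2 ^ m) ^ d := by rw [← pow_mul, ← pow_succ', ← pow_mul, mul_comm]
      _ ≤ (2 * (1 + |t|)) ^ d := by gcongr
      _ = _ := mul_pow _ _ _
  rw [← e2]
  calc _ ≤ sz (b ^ (m + 1)) * sz (D.ex ((t / 2 ^ (m + 1)) • X)) * sz (b ^ (m + 1)) := by
        refine (hs.mul _ _).trans ?_
        rw [hs.inv]
        exact mul_le_mul_of_nonneg_right (hs.mul _ _) hp0
    _ ≤ (sz 1 * sz b ^ (m + 1)) * C * (sz 1 * sz b ^ (m + 1)) := by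
        have := zero_le_one.trans (hs.one_le (D.ex ((t / 2 ^ (m + 1)) • X)))
        gcongr
    _ = sz 1 ^ 2 * C * (sz b ^ 2) ^ (m + 1) := by ring
    _ ≤ sz 1 ^ 2 * C * (2 ^ d * (1 + |t|) ^ d) := by gcongr
    _ = _ := by ring

/-- The exponential of a combination of three vectors. -/
def ex3 (D : ExpData G n) (X Y Z : Mat n) (v : V3) : G := D.ex (v 0 • X + v 1 • Y + v 2 • Z)

omit [IsTopologicalGroup G] in
theorem mem3 {X Y Z : Mat n} (hX : X ∈ D.g) (hY : Y ∈ D.g) (hZ : Z ∈ D.g) (a b c : ℝ) :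
    a • X + b • Y + c • Z ∈ D.g :=
  D.g.add_mem (D.g.add_mem (D.g.smul_mem _ hX) (D.g.smul_mem _ hY)) (D.g.smul_mem _ hZ)

theorem unip_ex3 (hs : SzOK D sz) {X Y Z : Mat n} (hX : Eig D X) (hY : Eig D Y) (hZ : Eig D Z)
    (h1 : ⁅X, Y⁆ = 0) (h2 : ⁅X, Z⁆ = 0) (h3 : ⁅Y, Z⁆ = 0) : Unip sz (ex3 D X Y Z) := by
  have h1' : ⁅Y, X⁆ = 0 := by rw [← lie_skew, h1, neg_zero]
  have h2' : ⁅Z, X⁆ = 0 := by rw [← lie_skew, h2, neg_zero]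
  have h3' : ⁅Z, Y⁆ = 0 := by rw [← lie_skew, h3, neg_zero]
  refine ⟨fun u v => ?_, ?_, ?_⟩
  · rw [ex3, ex3, ex3, ← D.ex_add_of_commute (mem3 hX.1 hY.1 hZ.1 _ _ _)
      (mem3 hX.1 hY.1 hZ.1 _ _ _) (by simp [h1, h2, h3, h1', h2', h3'])]
    congr 1
    simp only [Pi.add_apply, add_smul]
    abel
  · exact D.ex_cont.comp_continuous (by fun_prop) fun v => mem3 hX.1 hY.1 hZ.1 _ _ _
  · obtain ⟨C1, d1, c1, p1⟩ := poly_ex hs hX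
    obtain ⟨C2, d2, c2, p2⟩ := poly_ex hs hY
    obtain ⟨C3, d3, c3, p3⟩ := poly_ex hs hZ
    refine ⟨C1 * C2 * C3, d1 + d2 + d3, fun v => ?_⟩
    have hv : ∀ i, |v i| ≤ ‖v‖ := fun i => norm_le_pi_norm v i
    rw [ex3, D.ex_add_of_commute (D.g.add_mem (D.g.smul_mem _ hX.1) (D.g.smul_mem _ hY.1))
      (D.g.smul_mem _ hZ.1) (by simp [h2, h3]),
      D.ex_add_of_commute (D.g.smul_mem _ hX.1) (D.g.smul_mem _ hY.1) (by simp [h1])]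
    have q1 := (p1 (v 0)).trans (show _ ≤ C1 * (1 + ‖v‖) ^ d1 by gcongr; exact hv 0)
    have q2 := (p2 (v 1)).trans (show _ ≤ C2 * (1 + ‖v‖) ^ d2 by gcongr; exact hv 1)
    have q3 := (p3 (v 2)).trans (show _ ≤ C3 * (1 + ‖v‖) ^ d3 by gcongr; exact hv 2)
    have z2 := zero_le_one.trans (hs.one_le (D.ex (v 1 • Y)))
    have z3 := zero_le_one.trans (hs.one_le (D.ex (v 2 • Z)))
    calc _ ≤ sz (D.ex (v 0 • X)) * sz (D.ex (v 1 • Y)) * sz (D.ex (v 2 • Z)) :=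
          (hs.mul _ _).trans (mul_le_mul_of_nonneg_right (hs.mul _ _) z3)
      _ ≤ (C1 * (1 + ‖v‖) ^ d1) * (C2 * (1 + ‖v‖) ^ d2) * (C3 * (1 + ‖v‖) ^ d3) := by gcongr
      _ = _ := by ring

theorem shear_ex3 {w z x x2 : Mat n} (hw : w ∈ D.g) (hz : z ∈ D.g) (hx : x ∈ D.g) (hx2 : x2 ∈ D.g)
    (h1 : ⁅w, z⁆ = x) (h2 : ⁅w, x⁆ = x2) (h3 : ⁅w, x2⁆ = 0) (s : ℝ) (v : V3) :
    D.ex (s • w) * ex3 D z x x2 v = ex3 D z x x2 (sh s v) * D.ex (s • w) := by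
  rw [← mul_inv_eq_iff_eq_mul, ex3, ex3, D.conj_ex _ (mem3 hz hx hx2 _ _ _),
    Ad_ex_nil3 (D.g.smul_mem s hw) (by simp [h1, h2, h3])]
  congr 1
  simp only [smul_lie, lie_add, lie_smul, h1, h2, h3, sh, Matrix.cons_val_zero,
    Matrix.cons_val_one, Matrix.cons_val, smul_zero, lie_zero]
  module

/-- Bracket relations at a longest root. -/
structure LieData (D : ExpData G n) where
  z : Mat n
  x : Mat n
  y : Mat n
  x2 : Mat n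
  y2 : Mat n
  w1 : Mat n
  w2 : Mat n
  f : Mat n
  h : Mat n
  mz : z ∈ D.g
  ex : Eig D x
  ey : Eig D y
  ex2 : Eig D x2
  ey2 : Eig D y2
  mw1 : w1 ∈ D.g
  mw2 : w2 ∈ D.g
  mf : f ∈ D.g
  mh : h ∈ D.g
  a1 : ⁅w1, z⁆ = x
  a2 : ⁅w1, x⁆ = x2
  a3 : ⁅w1, x2⁆ = 0
  a4 : ⁅z, x⁆ = 0
  a5 : ⁅z, x2⁆ = 0
  a6 : ⁅x, x2⁆ = 0
  b1 : ⁅w2, z⁆ = y
  b2 : ⁅w2, y⁆ = y2
  b3 : ⁅w2, y2⁆ = 0
  b4 : ⁅z, y⁆ = 0
  b5 : ⁅z, y2⁆ = 0
  b6 : ⁅y, y2⁆ = 0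
  xy : ⁅x, y⁆ = z
  hz : ⁅h, z⁆ = (2 : ℝ) • z
  hf : ⁅h, f⁆ = -((2 : ℝ) • f)
  zf : ⁅z, f⁆ = h

/-- The group relations at a longest root. -/
def LieData.data (L : LieData D) (Γ : Gauge D) (hs : SzOK D sz) : Data sz Γ.dd where
  e1 := ex3 D L.z L.x L.x2
  e2 := ex3 D L.z L.y L.y2
  w1 s := D.ex (s • L.w1)
  w2 s := D.ex (s • L.w2)
  lo s := D.ex (s • L.f)
  a := D.ex (Real.log 2 • L.h)
  u1 := unip_ex3 hs ⟨L.mz, L.h, L.mh, 2, two_ne_zero, L.hz⟩ L.ex L.ex2 L.a4 L.a5 L.a6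
  u2 := unip_ex3 hs ⟨L.mz, L.h, L.mh, 2, two_ne_zero, L.hz⟩ L.ey L.ey2 L.b4 L.b5 L.b6
  l1 := lipAt_ex Γ L.mw1
  l2 := lipAt_ex Γ L.mw2
  l3 := lipAt_ex Γ L.mf
  same t := by simp [ex3]
  c1 := shear_ex3 L.mw1 L.mz L.ex.1 L.ex2.1 L.a1 L.a2 L.a3
  c2 := shear_ex3 L.mw2 L.mz L.ey.1 L.ey2.1 L.b1 L.b2 L.b3
  heis s t r := by
    have hxz : ⁅L.x, L.z⁆ = 0 := by rw [← lie_skew, L.a4, neg_zero]
    have e : ex3 D L.z L.x L.x2 ![0, s, 0] = D.ex (s • L.x) := by simp [ex3]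
    have hm := D.g.smul_mem s L.ex.1
    rw [e, ← inv_mul_eq_iff_eq_mul, ← mul_assoc, ← inv_inv (D.ex (s • L.x)), inv_inv (_)⁻¹, ex3,
      ex3, D.conj_ex _ (mem3 L.mz L.ey.1 L.ey2.1 _ _ _), ← D.ex_neg hm,
      Ad_ex_nil3 (D.g.neg_mem hm) (by simp [L.xy, hxz])]
    congr 1
    simp [L.xy, hxz]
    module
  sl d hd := by
    have e : ∀ t : ℝ, ex3 D L.z L.x L.x2 ![t, 0, 0] = D.ex (t • L.z) := fun t => by simp [ex3]
    have h1 : 1 + d⁻¹ * d = 2 := by rw [inv_mul_cancel₀ hd.ne']; norm_num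
    have h2 := D.ex_sl2 L.mz L.mf L.hz L.hf L.zf (s := d⁻¹) (t := d) (by rw [h1]; norm_num)
    have h3 := conj_ex_eigen L.mh L.mf (c := -2) (by rw [L.hf, neg_smul]) (Real.log 2) (2 * d)
    have h4 : Real.exp (Real.log 2 * -2) * (2 * d) = d / 2 := by
      rw [mul_neg, Real.exp_neg, mul_comm (Real.log 2), show (2 : ℝ) * Real.log 2 =
        (2 : ℕ) * Real.log 2 by norm_num, Real.exp_nat_mul, Real.exp_log two_pos]
      ring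
    rw [e, e, h2, h1, mul_assoc, ← D.ex_add_smul L.mz,
      show d⁻¹ / 2 + -(2 * d)⁻¹ = 0 by field_simp; ring, zero_smul, D.ex_zero, mul_one, ← h4, ← h3,
      inv_mul_cancel_right]

theorem LieData.data_e1 (L : LieData D) (Γ : Gauge D) (hs : SzOK D sz) (t : ℝ) :
    (L.data Γ hs).e1 ![t, 0, 0] = D.ex (t • L.z) := by simp [LieData.data, ex3]

theorem LieData.data_a (L : LieData D) (Γ : Gauge D) (hs : SzOK D sz) :
    (L.data Γ hs).a = D.ex (Real.log 2 • L.h) := rfl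

end Pool.Agent.P.MP_d483fb_an.Z.EM
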