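import Pool.Agent.P.MP_d483fb_an.Z.EM.Inst1
import Pool.Agent.P.MP_d483fb_an.Z.Lie.STLie
import Pool.Agent.P.MP_d483fb_an.Z.Lie.Root2

/-!
Longest roots, their bracket data, and generation of the simple factors.
-/

open scoped Matrix Matrix.Norms.Operator InnerProductSpace RealInnerProductSpace Topology
open Filter Set NormedSpace

attribute [local instance 100] LieRing.ofAssociativeRing

noncomputable section

namespace Pool.Agent.P.MP_d483fb_an.Z.EM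

open _root_.Pool.Agent.P.MP_d483fb_an.Z.ST _root_.Pool.Agent.P.MP_d483fb_an.Z.Std

variable {G : Type} [Group G] [TopologicalSpace G] {n k : ℕ} {D : Std G n k} {sz : G → ℝ}

/-- A root of maximal length in its simple factor. -/
def Long (D : Std G n k) (b : Euc k) : Prop :=
  b ∈ D.roots ∧ ∀ δ ∈ D.roots, D.Conn b δ → ‖δ‖ ≤ ‖b‖

theorem conn_step {β γ : Euc k} (hβ : β ∈ D.roots) (hγ : γ ∈ D.roots) (h : ⟪β, γ⟫ ≠ 0) :
    D.Conn β γ := Relation.ReflTransGen.single ⟨hβ, hγ, h⟩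

theorem Long.of_conn {b b' : Euc k} (hb : Long D b) (h : D.Conn b b') (hb' : b' ∈ D.roots)
    (hn : ‖b'‖ = ‖b‖) : Long D b' :=
  ⟨hb', fun δ hδ hc => hn ▸ hb.2 δ hδ (h.trans hc)⟩

theorem exists_long {γ : Euc k} (hγ : γ ∈ D.roots) : ∃ b, Long D b ∧ D.Conn γ b := by
  classical
  obtain ⟨b, hb, hm⟩ := (D.roots.filter fun δ => D.Conn γ δ).exists_max_image (fun δ => ‖δ‖)
    ⟨γ, Finset.mem_filter.2 ⟨hγ, Relation.ReflTransGen.refl⟩⟩
  obtain ⟨h1, h2⟩ := Finset.mem_filter.1 hb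
  exact ⟨b, ⟨h1, fun δ hδ hc => hm δ (Finset.mem_filter.2 ⟨hδ, h2.trans hc⟩)⟩, h2⟩

theorem inner_refl_left (β b s : Euc k) :
    ⟪refl β b, s⟫ = ⟪b, s⟫ - 2 * ⟪β, b⟫ / ⟪β, β⟫ * ⟪β, s⟫ := by
  unfold Std.refl
  rw [inner_sub_left, real_inner_smul_left]

variable [IsTopologicalGroup G]

theorem Long.refl {b β : Euc k} (hb : Long D b) (hβ : β ∈ D.roots) (h : ⟪β, b⟫ ≠ 0) :
    Long D (refl β b) ∧ D.Conn b (refl β b) := by
  have h0 : ⟪β, β⟫ ≠ 0 := inner_self_ne_zero.2 (D.root_ne_zero hβ)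
  have h1 := D.refl_mem_roots hβ hb.1
  have h2 : D.Conn b (Std.refl β b) := by
    refine (conn_step hb.1 hβ (by rwa [real_inner_comm])).trans (conn_step hβ h1 ?_)
    rw [real_inner_comm, inner_refl_left, div_mul_cancel₀ _ h0, real_inner_comm β b]
    intro h3
    exact h (by linarith)
  exact ⟨hb.of_conn h2 h1 (norm_refl β b), h2⟩

theorem exists_long_inner {b β : Euc k} (hb : Long D b) (h : D.Conn b β) :
    ∃ b', Long D b' ∧ D.Conn b b' ∧ ⟪β, b'⟫ ≠ 0 := by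
  induction h with
  | refl => exact ⟨b, hb, .refl, inner_self_ne_zero.2 (D.root_ne_zero hb.1)⟩
  | @tail x y _ hxy ih =>
    obtain ⟨b', h1, h2, h3⟩ := ih
    by_cases h4 : ⟪y, b'⟫ = 0
    · obtain ⟨h5, h6⟩ := h1.refl hxy.1 h3
      refine ⟨_, h5, h2.trans h6, ?_⟩
      rw [real_inner_comm, inner_refl_left, real_inner_comm y b', h4, zero_sub, neg_ne_zero]
      exact mul_ne_zero (div_ne_zero (mul_ne_zero two_ne_zero h3)
        (inner_self_ne_zero.2 (D.root_ne_zero hxy.1))) hxy.2.2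
    · exact ⟨b', h1, h2, h4⟩

theorem exists_long_ge {β : Euc k} (hβ : β ∈ D.roots) (s : Euc k) :
    ∃ b, Long D b ∧ D.Conn β b ∧ |⟪β, s⟫| ≤ 2 * ⟪b, s⟫ := by
  have key : ∀ b, Long D b → D.Conn β b → |⟪β, s⟫| ≤ 2 * |⟪b, s⟫| →
      ∃ b, Long D b ∧ D.Conn β b ∧ |⟪β, s⟫| ≤ 2 * ⟪b, s⟫ := by
    intro b hb hc h
    rcases le_total 0 ⟪b, s⟫ with h0 | h0
    · exact ⟨b, hb, hc, by rwa [abs_of_nonneg h0] at h⟩
    · refine ⟨-b, hb.of_conn (D.conn_neg hb.1) (D.neg_mem_roots hb.1) (norm_neg b),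
        hc.trans (D.conn_neg hb.1), ?_⟩
      rwa [abs_of_nonpos h0, ← inner_neg_left] at h
  obtain ⟨b0, hb0, hc0⟩ := exists_long hβ
  obtain ⟨b, hb, hc, hi⟩ := exists_long_inner hb0 (D.conn_symm hc0)
  obtain ⟨hb', hc'⟩ := hb.refl hβ hi
  have h0 : ⟪β, β⟫ ≠ 0 := inner_self_ne_zero.2 (D.root_ne_zero hβ)
  obtain ⟨m, hm⟩ := D.integral hβ hb.1
  have hm0 : m ≠ 0 := by
    rintro rfl
    exact hi (by simpa using hm)
  have h1 : (1 : ℝ) ≤ |(m : ℝ)| := by exact_mod_cast Int.one_le_abs hm0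
  have h2 := inner_refl_left β b s
  rw [hm, mul_div_cancel_right₀ _ h0] at h2
  have h3 : |⟪β, s⟫| ≤ |⟪b, s⟫| + |⟪Std.refl β b, s⟫| := by
    have e : (m : ℝ) * ⟪β, s⟫ = ⟪b, s⟫ - ⟪Std.refl β b, s⟫ := by linarith
    calc _ ≤ |(m : ℝ)| * |⟪β, s⟫| := le_mul_of_one_le_left (abs_nonneg _) h1
      _ = |⟪b, s⟫ - ⟪Std.refl β b, s⟫| := by rw [← abs_mul, e]
      _ ≤ _ := abs_sub _ _
  rcases le_total |⟪b, s⟫| |⟪Std.refl β b, s⟫| with h | h
  · exact key _ hb' ((hc0.trans hc).trans hc') (by linarith)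
  · exact key _ hb (hc0.trans hc) (by linarith)

theorem eig_gr {β : Euc k} (hβ : β ≠ 0) {X : Mat n} (hX : X ∈ D.gr β) : Eig D.toExpData X :=
  ⟨D.gr_le β hX, D.dg β, D.dg_mem β, _, inner_self_ne_zero.2 hβ, D.br_dg hX β⟩

theorem Long.lieData [PreconnectedSpace G] {b : Euc k} (hb : Long D b) :
    ∃ L : LieData D.toExpData, L.z ∈ D.gr b ∧ L.h = D.dg ((2 / ⟪b, b⟫) • b) := by
  obtain ⟨a, c, x, y, z, w, w', f, -, ha, hc, hac, hca, hx, hy, hz, hw, hw', hf, e1, e2, e3, e4, e5,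
    e6, e7, e8, e9, e10, e11, e12⟩ := D.exists_stLie hb.1 fun δ hδ h =>
      hb.2 δ hδ (conn_step hb.1 hδ (by rwa [real_inner_comm]))
  have h0 : ⟪b, b⟫ ≠ 0 := inner_self_ne_zero.2 (D.root_ne_zero hb.1)
  have ha0 : a ≠ 0 := by rintro rfl; simp at ha
  have hc0 : c ≠ 0 := by rintro rfl; simp at hc
  have h1 : -c + a ≠ 0 := by
    intro h
    rw [neg_add_eq_sub] at h
    simp [h] at hac
  have h2 : -a + c ≠ 0 := by
    intro h
    rw [neg_add_eq_sub] at h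
    simp [h] at hca
  refine ⟨⟨z, x, y, ⁅w, x⁆, ⁅w', y⁆, w, w', f, _, D.gr_le _ hz, eig_gr ha0 hx, eig_gr hc0 hy,
    eig_gr h1 (D.br_gr hw hx), eig_gr h2 (D.br_gr hw' hy), D.gr_le _ hw, D.gr_le _ hw',
    D.gr_le _ hf, D.dg_mem _, e4, rfl, e5, e2, e6, e7, e8, rfl, e9, e3, e10, e11, e1, ?_, ?_, e12⟩,
    hz, rfl⟩
  · rw [D.br_dg hz, real_inner_smul_right, div_mul_cancel₀ _ h0]
  · rw [D.br_dg hf, inner_neg_left, real_inner_smul_right, div_mul_cancel₀ _ h0, neg_smul]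

theorem contr_ex (Γ : Gauge D.toExpData) {s β : Euc k} {X : Mat n} (hX : X ∈ D.gr β)
    (h : ⟪β, s⟫ < 0) : Contr Γ.dd (D.a s) (D.ex X) := by
  refine ⟨Γ.c * ‖X‖, Real.exp ⟪β, s⟫, (Real.exp_pos _).le, Real.exp_lt_one_iff.2 h, fun m => ?_⟩
  rw [← D.a_nsmul, D.a_conj_ex _ hX, real_inner_smul_right, Real.exp_nat_mul]
  refine (Γ.ex_le _ (D.g.smul_mem _ (D.gr_le β hX))).trans_eq ?_
  rw [norm_smul, Real.norm_of_nonneg (by positivity)]
  ring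

theorem fac_le_of_contr (Γ : Gauge D.toExpData) {b s : Euc k} (hb : b ∈ D.roots)
    (hs : ⟪b, s⟫ ≠ 0) (S : Subgroup G) (hS : IsClosed (S : Set G))
    (h : ∀ g, Contr Γ.dd (D.a s) g ∨ Contr Γ.dd (D.a s)⁻¹ g → g ∈ S) : D.grp (D.fac b) ≤ S := by
  refine D.grp_le hS (D.fac_le (D.lie_isSub S) fun γ hγ =>
    D.gen_conn (D.lie_isSub S) (s := s) (fun δ _ hδ => ?_) hb hs hγ.2)
  refine D.le_lie (D.gr_le δ) fun X hX => h _ ?_
  rcases hδ.lt_or_gt with h1 | h1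
  · exact .inl (contr_ex Γ hX h1)
  · rw [← D.a_neg]
    exact .inr (contr_ex Γ hX (by rw [inner_neg_right]; linarith))

theorem ex_mem_fac {b β : Euc k} (hβ : β ∈ D.roots) (h : D.Conn b β) {X : Mat n}
    (hX : X ∈ D.gr β) : D.ex X ∈ D.grp (D.fac b) :=
  Subgroup.subset_closure ⟨X, Submodule.mem_sup_left (D.gr_le_grS (S := D.facR b) ⟨hβ, h⟩ hX), rfl⟩

end Pool.Agent.P.MP_d483fb_an.Z.EM
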