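import Pool.Agent.P.MP_d483fb_an.Z.EM.Defs
import Pool.Agent.P.MP_d483fb_an.Z.ST.Defs

/-!
Exponential decay of matrix coefficients of an isometric representation, deduced from the rate of
convergence of unipotent averages.
-/

open scoped RealInnerProductSpace
open Filter Topology Set

namespace Pool.Agent.P.MP_d483fb_an.Z.EM

open _root_.Pool.Agent.P.MP_d483fb_an.Z.ST

variable {G : Type*} [Group G] {H : Type*} [NormedAddCommGroup H] [InnerProductSpace ℝ H]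

variable {sz dd : G → ℝ} {π : G →* (H →L[ℝ] H)}

lemma GLip.nonneg {M : ℝ} {v : H} (h : GLip dd π M v) : 0 ≤ M := (norm_nonneg v).trans h.1

lemma GLip.smul {M : ℝ} {v : H} (h : GLip dd π M v) {c : ℝ} (hc : 0 ≤ c) :
    GLip dd π (c * M) (c • v) := by
  refine ⟨?_, fun g => ?_⟩
  · rw [norm_smul, Real.norm_of_nonneg hc]
    exact mul_le_mul_of_nonneg_left h.1 hc
  · rw [map_smul, ← smul_sub, norm_smul, Real.norm_of_nonneg hc, mul_assoc]
    exact mul_le_mul_of_nonneg_left (h.2 g) hc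

lemma gLip_of_local (hπ : ∀ g v, ‖π g v‖ = ‖v‖) (h0 : ∀ g, 0 ≤ dd g) {L : ℝ} (hL : 0 ≤ L) {v : H}
    (h : ∀ g, dd g ≤ 1 → ‖π g v - v‖ ≤ L * dd g) : GLip dd π (2 * ‖v‖ + L) v := by
  have hv := norm_nonneg v
  refine ⟨by linarith, fun g => ?_⟩
  have hg := h0 g
  rcases le_total (dd g) 1 with h1 | h1
  · have := h g h1
    nlinarith
  · have h2 := norm_sub_le (π g v) v
    rw [hπ] at h2
    nlinarith

lemma GLip.conj (hπ : ∀ g v, ‖π g v‖ = ‖v‖) {M c : ℝ} {v : H} (h : GLip dd π M v) (hc : 1 ≤ c)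
    {k : G} (hk : ∀ g, dd (k⁻¹ * g * k) ≤ c * dd g) : GLip dd π (c * M) (π k v) := by
  have hM := h.nonneg
  refine ⟨?_, fun g => ?_⟩
  · rw [hπ]
    nlinarith [h.1]
  · have e : π g (π k v) - π k v = π k (π (k⁻¹ * g * k) v - v) := by
      rw [map_sub, ← pi_mul, ← pi_mul]
      congr 3
      group
    rw [e, hπ]
    calc _ ≤ M * dd (k⁻¹ * g * k) := h.2 _
      _ ≤ M * (c * dd g) := mul_le_mul_of_nonneg_left (hk g) hM
      _ = _ := by ring

lemma hol_gLip : Hol dd π {v | GLip dd π 1 v} := by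
  refine ⟨⟨1, fun v hv => hv.1⟩, fun q => q ^ (-1 : ℝ), ⟨1, one_pos, 1, by simp⟩, ?_⟩
  refine Eventually.of_forall fun q v hv g hg => ?_
  have := hv.2 g
  simp only [Real.rpow_neg_one]
  linarith

variable [CompleteSpace H]

lemma GLip.prj (hπ : ∀ g v, ‖π g v‖ = ‖v‖) {N : Subgroup G} (hN : N.Normal) {M : ℝ} {v : H}
    (h : GLip dd π M v) : GLip dd π M (prj π N v) :=
  ⟨(norm_prj_le π N v).trans h.1, fun g => (norm_pi_prj_sub hπ hN g v).trans (h.2 g)⟩

variable [TopologicalSpace G]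

lemma smul_e (t : ℝ) : t • (![1, 0, 0] : V3) = ![t, 0, 0] := by
  ext i
  fin_cases i <;> simp

lemma e1_inv (D : Data sz dd) (t : ℝ) : (D.e1 ![t, 0, 0])⁻¹ = D.e1 ![-t, 0, 0] := by
  have h0 : D.e1 0 = 1 := by
    have h := D.u1.add 0 0
    rwa [add_zero, left_eq_mul] at h
  have h := D.u1.add ![t, 0, 0] ![-t, 0, 0]
  have e : (![t, 0, 0] : V3) + ![-t, 0, 0] = 0 := by
    ext i
    fin_cases i <;> simp
  rw [e, h0] at h
  exact inv_eq_of_mul_eq_one_right h.symm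

/-- The limit of the averages is the projection. -/
lemma prj_avz (hπ : ∀ g v, ‖π g v‖ = ‖v‖) (hg : Grow sz π) (D : Data sz dd) {N : Subgroup G}
    (hz : ∀ t : ℝ, D.e1 ![t, 0, 0] ∈ N) {p : ℝ} (hp : 0 < p) (v : H) :
    prj π N (D.avz hg p v) = prj π N v := by
  have hK : Convex ℝ {y : H | prj π N y = prj π N v} :=
    (convex_singleton (prj π N v)).is_linear_preimage (prj π N).toLinearMap.isLinear
  refine (hg.rep D.u1).av_mem hp hK (isClosed_eq (prj π N).continuous continuous_const) ?_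
  intro t _
  change prj π N (π (D.e1 (t • ![1, 0, 0])) v) = _
  rw [smul_e]
  exact prj_pi_of_mem hπ (hz t) v

lemma rate_prj (hπ : ∀ g v, ‖π g v‖ = ‖v‖) (hg : Grow sz π) (D : Data sz dd) {N : Subgroup G}
    (hz : ∀ t : ℝ, D.e1 ![t, 0, 0] ∈ N) {S : Set H} {P : H → H} {F : ℝ → ℝ} (hF : Sm F)
    (hP : ∀ᶠ p in atTop, ∀ v ∈ S, ‖D.avz hg p v - P v‖ ≤ F p) (hf : ∀ v ∈ S, P v ∈ fixS π N) :
    ∃ F, Sm F ∧ ∀ᶠ p in atTop, ∀ v ∈ S, ‖D.avz hg p v - prj π N v‖ ≤ F p := by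
  obtain ⟨κ, hκ, C, hC⟩ := hF
  refine ⟨fun p => 2 * F p, ⟨κ, hκ, 2 * C, ?_⟩, ?_⟩
  · filter_upwards [hC] with q hq
    linarith
  · filter_upwards [hP, eventually_gt_atTop 0] with p hp hp0 v hv
    have h1 := hp v hv
    have h2 : ‖prj π N v - P v‖ ≤ F p := by
      rw [← prj_avz hπ hg D hz hp0 v, ← prj_of_mem (hf v hv), ← map_sub]
      exact (norm_prj_le π N _).trans h1
    have e : D.avz hg p v - prj π N v = (D.avz hg p v - P v) - (prj π N v - P v) := by abel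
    rw [e]
    exact (norm_sub_le _ _).trans (by linarith)

lemma inner_avz (hπ : ∀ g v, ‖π g v‖ = ‖v‖) (hg : Grow sz π) (D : Data sz dd) {Cz : ℝ}
    (hCz : 0 ≤ Cz) (lz : ∀ t, |t| ≤ 1 → dd (D.e1 ![t, 0, 0]) ≤ Cz * |t|) {a : G} {T : ℝ}
    (hT : 0 ≤ T) (ha : ∀ t : ℝ, a⁻¹ * D.e1 ![t, 0, 0] * a = D.e1 ![Real.exp (-T) * t, 0, 0])
    {M : ℝ} {x : H} (hx : GLip dd π M x) {v : H} (hv : ‖v‖ ≤ 1) :
    |⟪π a x, v - D.avz hg (Real.exp (T / 2)) v⟫| ≤ M * (Cz * Real.exp (-(T / 2))) := by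
  have hM := hx.nonneg
  set c := M * (Cz * Real.exp (-(T / 2))) with hc
  have hK : Convex ℝ {y : H | |⟪π a x, v - y⟫| ≤ c} := by
    have e : {y : H | |⟪π a x, v - y⟫| ≤ c} =
        (innerSL ℝ (π a x)) ⁻¹' Icc (⟪π a x, v⟫ - c) (⟪π a x, v⟫ + c) := by
      ext y
      simp only [mem_ofPred_eq, inner_sub_right, abs_le, mem_preimage, innerSL_apply_apply,
        mem_Icc]
      constructor <;> rintro ⟨h1, h2⟩ <;> constructor <;> linarith
    rw [e]
    exact (convex_Icc _ _).is_linear_preimage (innerSL ℝ (π a x)).toLinearMap.isLinear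
  have hcl : IsClosed {y : H | |⟪π a x, v - y⟫| ≤ c} :=
    isClosed_le (by fun_prop) continuous_const
  refine (hg.rep D.u1).av_mem (Real.exp_pos _) hK hcl ?_
  intro t ht
  change |⟪π a x, v - π (D.e1 (t • ![1, 0, 0])) v⟫| ≤ c
  rw [smul_e]
  set u := D.e1 ![Real.exp (-T) * -t, 0, 0] with hu
  have e1 : ⟪π a x, π (D.e1 ![t, 0, 0]) v⟫ = ⟪π a (π u x), v⟫ := by
    rw [real_inner_comm, inner_pi_left hπ, real_inner_comm, e1_inv, ← pi_mul, ← pi_mul, hu, ← ha]
    congr 3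
    group
  have hs : |Real.exp (-T) * -t| ≤ Real.exp (-(T / 2)) := by
    rw [abs_mul, abs_neg, abs_of_nonneg ht.1, abs_of_pos (Real.exp_pos _)]
    calc _ ≤ Real.exp (-T) * Real.exp (T / 2) :=
          mul_le_mul_of_nonneg_left ht.2 (Real.exp_pos _).le
      _ = _ := by rw [← Real.exp_add]; congr 1; ring
  have hs1 : Real.exp (-(T / 2)) ≤ 1 := Real.exp_le_one_iff.2 (by linarith)
  have h1 : dd u ≤ Cz * Real.exp (-(T / 2)) :=
    (lz _ (hs.trans hs1)).trans (mul_le_mul_of_nonneg_left hs hCz)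
  have h2 : ‖x - π u x‖ ≤ c := by
    rw [norm_sub_rev]
    exact (hx.2 u).trans (mul_le_mul_of_nonneg_left h1 hM)
  rw [inner_sub_right, e1, ← inner_sub_left, ← map_sub]
  calc _ ≤ ‖π a (x - π u x)‖ * ‖v‖ := abs_real_inner_le_norm _ _
    _ ≤ c * 1 := by
        rw [hπ]
        exact mul_le_mul h2 hv (norm_nonneg _) ((norm_nonneg _).trans h2)
    _ = c := mul_one c

/-- Decay for one factor. -/
lemma em_one (hπ : ∀ g v, ‖π g v‖ = ‖v‖) (hg : Grow sz π) (D : Data sz dd) (N : Subgroup G)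
    (lz : LipAt dd fun t => D.e1 ![t, 0, 0])
    (hP : ∃ F, Sm F ∧ ∀ᶠ p in atTop, ∀ v ∈ {v | GLip dd π 1 v},
      ‖D.avz hg p v - prj π N v‖ ≤ F p) :
    ∃ κ : ℝ, 0 < κ ∧ ∃ C : ℝ, 0 ≤ C ∧ ∀ (a : G) (T : ℝ),
      (∀ t : ℝ, a⁻¹ * D.e1 ![t, 0, 0] * a = D.e1 ![Real.exp (-T) * t, 0, 0]) →
      ∀ (M M' : ℝ) (x v : H), GLip dd π M x → GLip dd π M' v →
        |⟪π a x, v - prj π N v⟫| ≤ C * M * M' * Real.exp (-(κ * T)) := by
  obtain ⟨F, ⟨κ, hκ, C, hC⟩, hP⟩ := hP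
  obtain ⟨Cz, hCz⟩ := lz
  obtain ⟨p0, hp0⟩ := eventually_atTop.1 (hC.and hP)
  set κ' := min κ 1 / 2 with hκ'
  have hm : 0 < min κ 1 := lt_min hκ one_pos
  have hκ'0 : 0 < κ' := by positivity
  set T0 := 2 * |p0| with hT0
  have key : ∀ (a : G) (T : ℝ),
      (∀ t : ℝ, a⁻¹ * D.e1 ![t, 0, 0] * a = D.e1 ![Real.exp (-T) * t, 0, 0]) →
      ∀ (M : ℝ) (x v : H), GLip dd π M x → GLip dd π 1 v →
        |⟪π a x, v - prj π N v⟫| ≤
          (|Cz| + |C| + 2 * Real.exp (κ' * T0)) * M * Real.exp (-(κ' * T)) := by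
    intro a T ha M x v hx hv
    have hM := hx.nonneg
    have hE := Real.exp_pos (-(κ' * T))
    have hE0 := Real.exp_pos (κ' * T0)
    rcases le_total T T0 with h | h
    · have h1 : ‖v - prj π N v‖ ≤ 2 := by
        have := norm_sub_le v (prj π N v)
        linarith [norm_prj_le π N v, hv.1]
      have h2 : 1 ≤ Real.exp (κ' * T0) * Real.exp (-(κ' * T)) := by
        rw [← Real.exp_add]
        exact Real.one_le_exp (by nlinarith)
      calc _ ≤ ‖π a x‖ * ‖v - prj π N v‖ := abs_real_inner_le_norm _ _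
        _ ≤ M * 2 := by
            rw [hπ]
            exact mul_le_mul hx.1 h1 (norm_nonneg _) hM
        _ ≤ M * (2 * (Real.exp (κ' * T0) * Real.exp (-(κ' * T)))) := by gcongr; linarith
        _ = 2 * Real.exp (κ' * T0) * M * Real.exp (-(κ' * T)) := by ring
        _ ≤ _ := by gcongr; linarith [abs_nonneg Cz, abs_nonneg C]
    · have hT : 0 ≤ T := le_trans (by positivity) h
      have hp : p0 ≤ Real.exp (T / 2) := by
        have := Real.add_one_le_exp (T / 2)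
        linarith [le_abs_self p0]
      obtain ⟨h1, h2⟩ := hp0 _ hp
      have h3 := inner_avz hπ hg D (abs_nonneg Cz) (fun t ht => (hCz t ht).trans
        (mul_le_mul_of_nonneg_right (le_abs_self Cz) (abs_nonneg t))) hT ha hx hv.1
      have h4 : Real.exp (-(T / 2)) ≤ Real.exp (-(κ' * T)) := by
        apply Real.exp_le_exp.2
        have : κ' ≤ 1 / 2 := by rw [hκ']; linarith [min_le_right κ 1]
        nlinarith
      have h5 : Real.exp (T / 2) ^ (-κ) ≤ Real.exp (-(κ' * T)) := by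
        rw [← Real.exp_mul]
        apply Real.exp_le_exp.2
        have : κ' ≤ κ / 2 := by rw [hκ']; linarith [min_le_left κ 1]
        nlinarith
      have h6 : ‖D.avz hg (Real.exp (T / 2)) v - prj π N v‖ ≤ |C| * Real.exp (-(κ' * T)) :=
        ((h2 v hv).trans h1).trans (mul_le_mul (le_abs_self C) h5 (by positivity) (abs_nonneg C))
      have h7 : |⟪π a x, D.avz hg (Real.exp (T / 2)) v - prj π N v⟫| ≤
          M * (|C| * Real.exp (-(κ' * T))) := by
        refine (abs_real_inner_le_norm _ _).trans ?_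
        rw [hπ]
        exact mul_le_mul hx.1 h6 (norm_nonneg _) hM
      have e : ⟪π a x, v - prj π N v⟫ = ⟪π a x, v - D.avz hg (Real.exp (T / 2)) v⟫ +
          ⟪π a x, D.avz hg (Real.exp (T / 2)) v - prj π N v⟫ := by
        simp only [inner_sub_right]; ring
      rw [e]
      calc _ ≤ M * (|Cz| * Real.exp (-(T / 2))) + M * (|C| * Real.exp (-(κ' * T))) :=
            (abs_add_le _ _).trans (add_le_add h3 h7)
        _ ≤ M * (|Cz| * Real.exp (-(κ' * T))) + M * (|C| * Real.exp (-(κ' * T))) := by gcongr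
        _ = (|Cz| + |C|) * M * Real.exp (-(κ' * T)) := by ring
        _ ≤ _ := mul_le_mul_of_nonneg_right (mul_le_mul_of_nonneg_right (by linarith) hM) hE.le
  refine ⟨κ', hκ'0, |Cz| + |C| + 2 * Real.exp (κ' * T0), by positivity, ?_⟩
  intro a T ha M M' x v hx hv
  rcases hv.nonneg.eq_or_lt with h0 | h0
  · have : v = 0 := norm_le_zero_iff.1 (h0 ▸ hv.1)
    subst this
    simp [← h0]
  · have h1 := hv.smul (inv_nonneg.2 h0.le)
    rw [inv_mul_cancel₀ h0.ne'] at h1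
    have h2 := key a T ha M x _ hx h1
    rw [map_smul, ← smul_sub, inner_smul_right, abs_mul, abs_of_pos (inv_pos.2 h0),
      inv_mul_le_iff₀ h0] at h2
    linarith

end Pool.Agent.P.MP_d483fb_an.Z.EM
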