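import Mathlib

/-!
Orthogonal projections onto the vectors fixed by normal subgroups in an isometric representation,
and the telescoping estimate over finitely many normal subgroups generating the group.
-/

open scoped RealInnerProductSpace

namespace Pool.Agent.P.MP_d483fb_an.Z.EM

variable {G : Type*} [Group G] {H : Type*} [NormedAddCommGroup H] [InnerProductSpace ℝ H]

/-- Vectors fixed by a subgroup. -/
def fixS (π : G →* (H →L[ℝ] H)) (N : Subgroup G) : Submodule ℝ H where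
  carrier := {v | ∀ s ∈ N, π s v = v}
  add_mem' := by
    intro a b ha hb s hs
    simp only [map_add, ha s hs, hb s hs]
  zero_mem' := by
    intro s _
    simp
  smul_mem' := by
    intro c a ha s hs
    simp only [map_smul, ha s hs]

lemma mem_fixS {π : G →* (H →L[ℝ] H)} {N : Subgroup G} {v : H} :
    v ∈ fixS π N ↔ ∀ s ∈ N, π s v = v := Iff.rfl

lemma isClosed_fixS (π : G →* (H →L[ℝ] H)) (N : Subgroup G) :
    IsClosed (fixS π N : Set H) := by
  have : (fixS π N : Set H) = ⋂ s ∈ N, {v | π s v = v} := by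
    ext v
    simp [mem_fixS]
  rw [this]
  exact isClosed_biInter fun s _ => isClosed_eq (π s).continuous continuous_id

lemma pi_mul (π : G →* (H →L[ℝ] H)) (g h : G) (v : H) : π (g * h) v = π g (π h v) := by
  rw [map_mul]; rfl

lemma pi_inv_apply (π : G →* (H →L[ℝ] H)) (g : G) (v : H) : π g⁻¹ (π g v) = v := by
  rw [← pi_mul, inv_mul_cancel, map_one]; rfl

lemma pi_apply_inv (π : G →* (H →L[ℝ] H)) (g : G) (v : H) : π g (π g⁻¹ v) = v := by
  rw [← pi_mul, mul_inv_cancel, map_one]; rfl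

lemma inner_pi_pi {π : G →* (H →L[ℝ] H)} (hπ : ∀ g v, ‖π g v‖ = ‖v‖) (g : G) (v w : H) :
    ⟪π g v, π g w⟫ = ⟪v, w⟫ := by
  rw [real_inner_eq_norm_add_mul_self_sub_norm_mul_self_sub_norm_mul_self_div_two,
    real_inner_eq_norm_add_mul_self_sub_norm_mul_self_sub_norm_mul_self_div_two, ← map_add, hπ, hπ,
    hπ]

lemma inner_pi_left {π : G →* (H →L[ℝ] H)} (hπ : ∀ g v, ‖π g v‖ = ‖v‖) (g : G) (v w : H) :
    ⟪π g v, w⟫ = ⟪v, π g⁻¹ w⟫ := by
  rw [← inner_pi_pi hπ g v (π g⁻¹ w), pi_apply_inv]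

variable [CompleteSpace H]

instance (π : G →* (H →L[ℝ] H)) (N : Subgroup G) : (fixS π N).HasOrthogonalProjection := by
  have : CompleteSpace (fixS π N) := (isClosed_fixS π N).completeSpace_coe
  infer_instance

/-- The orthogonal projection onto the vectors fixed by `N`. -/
noncomputable def prj (π : G →* (H →L[ℝ] H)) (N : Subgroup G) : H →L[ℝ] H :=
  (fixS π N).starProjection

lemma prj_mem (π : G →* (H →L[ℝ] H)) (N : Subgroup G) (v : H) : prj π N v ∈ fixS π N :=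
  (fixS π N).starProjection_apply_mem v

lemma prj_fix (π : G →* (H →L[ℝ] H)) (N : Subgroup G) (v : H) {s : G} (hs : s ∈ N) :
    π s (prj π N v) = prj π N v := prj_mem π N v s hs

lemma inner_sub_prj (π : G →* (H →L[ℝ] H)) (N : Subgroup G) (v : H) {w : H}
    (hw : w ∈ fixS π N) : ⟪v - prj π N v, w⟫ = 0 :=
  Submodule.starProjection_inner_eq_zero v w hw

lemma norm_prj_le (π : G →* (H →L[ℝ] H)) (N : Subgroup G) (v : H) : ‖prj π N v‖ ≤ ‖v‖ := by
  have h := (prj π N).le_opNorm v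
  have h1 : ‖prj π N‖ ≤ 1 := (fixS π N).starProjection_norm_le
  nlinarith [norm_nonneg v]

lemma prj_eq_of {π : G →* (H →L[ℝ] H)} {N : Subgroup G} {v z : H} (hz : z ∈ fixS π N)
    (ho : ∀ w ∈ fixS π N, ⟪v - z, w⟫ = 0) : prj π N v = z :=
  Submodule.eq_starProjection_of_mem_of_inner_eq_zero hz ho

lemma prj_of_mem {π : G →* (H →L[ℝ] H)} {N : Subgroup G} {z : H} (hz : z ∈ fixS π N) :
    prj π N z = z := prj_eq_of hz (by intro w _; simp)

lemma prj_pi_of_mem {π : G →* (H →L[ℝ] H)} (hπ : ∀ g v, ‖π g v‖ = ‖v‖) {N : Subgroup G} {s : G}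
    (hs : s ∈ N) (v : H) : prj π N (π s v) = prj π N v := by
  refine prj_eq_of (prj_mem π N v) fun w hw => ?_
  have h1 := inner_sub_prj π N v hw
  rw [inner_sub_left] at h1 ⊢
  rw [inner_pi_left hπ, hw _ (N.inv_mem hs)]
  exact h1

omit [CompleteSpace H] in
lemma pi_mem_fixS {π : G →* (H →L[ℝ] H)} {N : Subgroup G} (hN : N.Normal) (g : G) {w : H}
    (hw : w ∈ fixS π N) : π g w ∈ fixS π N := by
  intro s hs
  have h : g⁻¹ * s * g ∈ N := by simpa using hN.conj_mem s hs g⁻¹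
  have h2 := hw _ h
  have h3 : s * g = g * (g⁻¹ * s * g) := by group
  rw [← pi_mul, h3, pi_mul, h2]

lemma prj_comm {π : G →* (H →L[ℝ] H)} (hπ : ∀ g v, ‖π g v‖ = ‖v‖) {N : Subgroup G}
    (hN : N.Normal) (g : G) (v : H) : prj π N (π g v) = π g (prj π N v) := by
  refine prj_eq_of (pi_mem_fixS hN g (prj_mem π N v)) fun w hw => ?_
  rw [← map_sub, inner_pi_left hπ]
  exact inner_sub_prj π N v (pi_mem_fixS hN g⁻¹ hw)

lemma norm_pi_prj_sub {π : G →* (H →L[ℝ] H)} (hπ : ∀ g v, ‖π g v‖ = ‖v‖) {N : Subgroup G}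
    (hN : N.Normal) (g : G) (v : H) : ‖π g (prj π N v) - prj π N v‖ ≤ ‖π g v - v‖ := by
  rw [← prj_comm hπ hN, ← map_sub]
  exact norm_prj_le π N _

/-- Telescoping over finitely many normal subgroups. -/
lemma telescope {π : G →* (H →L[ℝ] H)} (hπ : ∀ g v, ‖π g v‖ = ‖v‖) {ι : Type*}
    (N : ι → Subgroup G) (hN : ∀ i, (N i).Normal) (Q : H → Prop)
    (hQ : ∀ i v, Q v → Q (prj π (N i) v)) (x : H) (B : ℝ) (s : Finset ι)
    (hB : ∀ i ∈ s, ∀ v, Q v → |⟪x, v - prj π (N i) v⟫| ≤ B) (v : H) (hv : Q v) :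
    ∃ z : H, Q z ∧ (∀ i ∈ s, z ∈ fixS π (N i)) ∧ (∀ w ∈ fixS π ⊤, ⟪v - z, w⟫ = 0) ∧
      |⟪x, v - z⟫| ≤ s.card * B := by
  classical
  induction s using Finset.induction_on with
  | empty => exact ⟨v, hv, by simp, by simp, by simp⟩
  | insert j s hj ih =>
    obtain ⟨z, hz, hf, ho, hb⟩ := ih fun i hi => hB i (Finset.mem_insert_of_mem hi)
    refine ⟨prj π (N j) z, hQ j z hz, ?_, ?_, ?_⟩
    · intro i hi
      rcases Finset.mem_insert.1 hi with rfl | hi
      · exact prj_mem π _ z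
      · intro g hg
        rw [← prj_comm hπ (hN j), hf i hi g hg]
    · intro w hw
      have h1 : ⟪z - prj π (N j) z, w⟫ = 0 :=
        inner_sub_prj π _ z fun g _ => hw g (Subgroup.mem_top g)
      have h2 := ho w hw
      rw [inner_sub_left] at h1 h2 ⊢
      linarith
    · rw [Finset.card_insert_of_notMem hj]
      have h1 := hB j (Finset.mem_insert_self j s) z hz
      have h2 : ⟪x, v - prj π (N j) z⟫ = ⟪x, z - prj π (N j) z⟫ + ⟪x, v - z⟫ := by
        simp only [inner_sub_right]; ring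
      rw [h2]
      push_cast
      have := (abs_add_le _ _).trans (add_le_add h1 hb)
      linarith

/-- The stabiliser of a vector. -/
def stabV (π : G →* (H →L[ℝ] H)) (z : H) : Subgroup G where
  carrier := {g | π g z = z}
  mul_mem' := by
    intro a b ha hb
    simp only [Set.mem_ofPred_eq] at ha hb ⊢
    rw [pi_mul, hb, ha]
  one_mem' := by simp
  inv_mem' := by
    intro a ha
    simp only [Set.mem_ofPred_eq] at ha ⊢
    conv_lhs => rw [← ha]
    exact pi_inv_apply π a z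

omit [CompleteSpace H] in
lemma mem_stabV {π : G →* (H →L[ℝ] H)} {z : H} {g : G} : g ∈ stabV π z ↔ π g z = z := Iff.rfl

omit [CompleteSpace H] in
lemma isClosed_stabV [TopologicalSpace G] {π : G →* (H →L[ℝ] H)}
    (hc : ∀ v, Continuous fun g => π g v) (z : H) : IsClosed (stabV π z : Set G) :=
  isClosed_eq (hc z) continuous_const

lemma telescope_top [TopologicalSpace G] {π : G →* (H →L[ℝ] H)} (hπ : ∀ g v, ‖π g v‖ = ‖v‖)
    (hc : ∀ v, Continuous fun g => π g v) {ι : Type*}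
    (N : ι → Subgroup G) (hN : ∀ i, (N i).Normal) (s : Finset ι)
    (hgen : ∀ S : Subgroup G, IsClosed (S : Set G) → (∀ i ∈ s, N i ≤ S) → S = ⊤) (Q : H → Prop)
    (hQ : ∀ i v, Q v → Q (prj π (N i) v)) (x : H) (B : ℝ)
    (hB : ∀ i ∈ s, ∀ v, Q v → |⟪x, v - prj π (N i) v⟫| ≤ B) (v : H) (hv : Q v) :
    |⟪x, v - prj π ⊤ v⟫| ≤ s.card * B := by
  obtain ⟨z, -, hf, ho, hb⟩ := telescope hπ N hN Q hQ x B s hB v hv
  have hz : z ∈ fixS π ⊤ := by
    have hS := hgen (stabV π z) (isClosed_stabV hc z) fun i hi g hg => hf i hi g hg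
    intro g hg
    rw [← hS] at hg
    exact hg
  rw [prj_eq_of hz ho]
  exact hb

lemma inner_pi_prj_top {π : G →* (H →L[ℝ] H)} (hπ : ∀ g v, ‖π g v‖ = ‖v‖) (g : G) (v w : H) :
    ⟪π g v, prj π ⊤ w⟫ = ⟪prj π ⊤ v, prj π ⊤ w⟫ := by
  have h := inner_sub_prj π ⊤ v (prj_mem π ⊤ w)
  rw [inner_sub_left] at h
  rw [inner_pi_left hπ, prj_fix π ⊤ w (Subgroup.mem_top _)]
  linarith

end Pool.Agent.P.MP_d483fb_an.Z.EM
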