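import Pool.Agent.P.MP_d483fb_an.Z.EM.Defs

/-!
Volumes of small balls of the gauge and Lipschitz probability measures carried by them.
-/

open scoped Matrix Matrix.Norms.Operator RealInnerProductSpace Topology Pointwise ENNReal
open MeasureTheory Filter Set

noncomputable section

namespace Pool.Agent.P.MP_d483fb_an.Z.EM

theorem vol_entry_le {n : ℕ} (A : Mat n) (i j : Fin n) : |A i j| ≤ ‖A‖ := by
  rw [Matrix.linfty_opNorm_def]
  have h1 : ‖A i j‖₊ ≤ ∑ j, ‖A i j‖₊ :=
    Finset.single_le_sum (f := fun j => ‖A i j‖₊) (fun _ _ => bot_le) (Finset.mem_univ j)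
  have h2 : (∑ j, ‖A i j‖₊) ≤ Finset.univ.sup fun i => ∑ j, ‖A i j‖₊ :=
    Finset.le_sup (f := fun i => ∑ j, ‖A i j‖₊) (Finset.mem_univ i)
  exact_mod_cast h1.trans h2

theorem vol_norm_le {n : ℕ} (A : Mat n) {ε : ℝ} (hε : 0 ≤ ε) (h : ∀ i j, |A i j| ≤ ε) :
    ‖A‖ ≤ n * ε := by
  rw [Matrix.linfty_opNorm_def]
  lift ε to NNReal using hε
  have : (Finset.univ.sup fun i => ∑ j, ‖A i j‖₊) ≤ (n : NNReal) * ε := by
    refine Finset.sup_le fun i _ => ?_
    calc ∑ j, ‖A i j‖₊ ≤ ∑ _j : Fin n, ε := Finset.sum_le_sum fun j _ => h i j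
      _ = _ := by simp
  exact_mod_cast this

variable {G : Type} [Group G] [TopologicalSpace G] [IsTopologicalGroup G] [T2Space G]
  [LocallyCompactSpace G] [SecondCountableTopology G] [MeasurableSpace G] [BorelSpace G]
  {n : ℕ} {D : ExpData G n}

omit [T2Space G] [LocallyCompactSpace G] [SecondCountableTopology G] [MeasurableSpace G]
  [BorelSpace G] in
theorem Gauge.vol_nhds (Γ : Gauge D) : ∃ V ∈ 𝓝 (1 : G), ∃ R : ℝ, 0 ≤ R ∧
    (∀ g ∈ V, ‖D.ρ g‖ ≤ R) ∧ ∀ g ∈ V, ∀ h ∈ V, Γ.dd (g⁻¹ * h) ≤ Γ.c * R * ‖D.ρ h - D.ρ g‖ := by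
  have hc : Tendsto (fun p : G × G => p.1⁻¹ * p.2) (𝓝 (1, 1)) (𝓝 1) := by
    have : Continuous fun p : G × G => p.1⁻¹ * p.2 := by fun_prop
    simpa using this.tendsto (1, 1)
  have h1 := hc.eventually Γ.le_rho
  rw [nhds_prod_eq] at h1
  obtain ⟨p, hp, q, hq, hpq⟩ := eventually_prod_iff.1 h1
  have hρ := D.cont
  have h2 : ∀ᶠ g in 𝓝 (1 : G), ‖D.ρ g‖ < ‖D.ρ 1‖ + 1 :=
    (hρ.norm.tendsto 1).eventually (gt_mem_nhds (lt_add_one _))
  have h3 : ∀ᶠ g in 𝓝 (1 : G), ‖D.ρ g⁻¹‖ < ‖D.ρ 1‖ + 1 := by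
    have : Continuous fun g : G => ‖D.ρ g⁻¹‖ := (hρ.comp continuous_inv).norm
    exact (this.tendsto 1).eventually (gt_mem_nhds (by simp))
  refine ⟨_, (hp.and (hq.and (h2.and h3))), ‖D.ρ 1‖ + 1, by positivity, fun g hg => hg.2.2.1.le,
    fun g hg h hh => ?_⟩
  refine (hpq hg.1 hh.2.1).trans ?_
  have e : D.ρ (g⁻¹ * h) - 1 = D.ρ g⁻¹ * (D.ρ h - D.ρ g) := by
    rw [mul_sub, ← map_mul, ← map_mul, inv_mul_cancel, map_one]
  rw [e, mul_assoc]
  exact mul_le_mul_of_nonneg_left ((norm_mul_le _ _).trans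
    (mul_le_mul_of_nonneg_right hg.2.2.2.le (norm_nonneg _))) Γ.c_nonneg

omit [T2Space G] [SecondCountableTopology G] in
theorem Gauge.vol (Γ : Gauge D) : ∃ c : ℝ, 0 < c ∧ ∃ L : ℕ, ∀ r : ℝ, 0 < r → r ≤ 1 →
    ENNReal.ofReal (c * r ^ L) ≤ Measure.haar {g | Γ.dd g < r} := by
  obtain ⟨V, hV, R, hR, hb, hd⟩ := Γ.vol_nhds
  have hc := Γ.c_nonneg
  have hVp : 0 < min 1 (Measure.haar V) :=
    lt_min one_pos (Measure.measure_pos_of_mem_nhds _ hV)
  have hVt : min 1 (Measure.haar V) ≠ ∞ := ne_top_of_le_ne_top ENNReal.one_ne_top (min_le_left _ _)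
  set m := (min 1 (Measure.haar V)).toReal with hm
  have hm0 : 0 < m := ENNReal.toReal_pos hVp.ne' hVt
  have hmV : ENNReal.ofReal m ≤ Measure.haar V := by
    rw [hm, ENNReal.ofReal_toReal hVt]
    exact min_le_right _ _
  set Q : ℝ := Γ.c * R * n + 1 with hQ
  have hQ0 : 0 < Q := by positivity
  set K : ℝ := 2 * (R * Q) + 5 with hK
  have hK0 : 0 < K := by positivity
  refine ⟨m / K ^ (n * n), by positivity, n * n, fun r hr hr1 => ?_⟩
  set ε : ℝ := r / Q with hε
  have hε0 : 0 < ε := by positivity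
  set M : ℕ := ⌈R * Q / r⌉₊ + 1 with hM
  set S : Finset (Fin n × Fin n → ℤ) :=
    Fintype.piFinset fun _ => Finset.Icc (-(M : ℤ)) M with hS
  set cell : (Fin n × Fin n → ℤ) → Set G :=
    fun k => {g | g ∈ V ∧ ∀ p : Fin n × Fin n, ⌊D.ρ g p.1 p.2 / ε⌋ = k p} with hcell
  have hcov : V ⊆ ⋃ k ∈ S, cell k := by
    intro g hg
    simp only [mem_iUnion]
    refine ⟨fun p => ⌊D.ρ g p.1 p.2 / ε⌋, ?_, hg, fun _ => rfl⟩
    rw [hS, Fintype.mem_piFinset]
    intro p
    have h1 : |D.ρ g p.1 p.2 / ε| ≤ R * Q / r := by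
      rw [abs_div, abs_of_pos hε0, div_le_iff₀ hε0, hε]
      have : R * Q / r * (r / Q) = R := by field_simp
      rw [this]
      exact (vol_entry_le _ _ _).trans (hb g hg)
    have h2 : R * Q / r + 1 ≤ M := by
      rw [hM]
      push_cast
      linarith [Nat.le_ceil (R * Q / r)]
    rw [abs_le] at h1
    rw [Finset.mem_Icc]
    constructor
    · rw [Int.le_floor]
      push_cast
      linarith [h1.1]
    · have := Int.floor_le (D.ρ g p.1 p.2 / ε)
      have h3 : ((⌊D.ρ g p.1 p.2 / ε⌋ : ℤ) : ℝ) ≤ ((M : ℤ) : ℝ) := by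
        push_cast
        linarith [h1.2]
      exact_mod_cast h3
  have hcl : ∀ k, Measure.haar (cell k) ≤ Measure.haar {g | Γ.dd g < r} := by
    intro k
    rcases (cell k).eq_empty_or_nonempty with h | ⟨g, hg⟩
    · simp [h]
    rw [← measure_preimage_mul Measure.haar g⁻¹ {g | Γ.dd g < r}]
    refine measure_mono fun h hh => ?_
    have h1 : ‖D.ρ h - D.ρ g‖ ≤ n * ε := by
      refine vol_norm_le _ hε0.le fun i j => ?_
      have h2 := Int.abs_sub_lt_one_of_floor_eq_floor ((hh.2 (i, j)).trans (hg.2 (i, j)).symm)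
      rw [← sub_div, abs_div, abs_of_pos hε0, div_lt_one hε0] at h2
      exact h2.le
    have h2 := hd g hg.1 h hh.1
    have h3 : Γ.c * R * ‖D.ρ h - D.ρ g‖ ≤ Γ.c * R * (n * ε) :=
      mul_le_mul_of_nonneg_left h1 (by positivity)
    have h4 : Γ.c * R * (n * ε) + ε = r := by
      rw [hε, hQ]
      field_simp
    show Γ.dd (g⁻¹ * h) < r
    linarith
  have hcard : (S.card : ℝ) ≤ (K / r) ^ (n * n) := by
    have e : S.card = (2 * M + 1) ^ (n * n) := by
      rw [hS, Fintype.card_piFinset]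
      simp only [Int.card_Icc, Finset.prod_const, Finset.card_univ, Fintype.card_prod,
        Fintype.card_fin]
      congr 1
      omega
    rw [e]
    push_cast
    refine pow_le_pow_left₀ (by positivity) ?_ _
    have h1 : (M : ℝ) ≤ R * Q / r + 2 := by
      rw [hM]
      push_cast
      linarith [Nat.ceil_lt_add_one (show 0 ≤ R * Q / r by positivity)]
    have h2 : (5 : ℝ) ≤ 5 / r := by
      rw [le_div_iff₀ hr]
      linarith
    have h3 : K / r = 2 * (R * Q / r) + 5 / r := by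
      rw [hK]
      ring
    linarith
  have hsum : ENNReal.ofReal m ≤
      ENNReal.ofReal ((K / r) ^ (n * n)) * Measure.haar {g | Γ.dd g < r} := by
    refine hmV.trans ((measure_mono hcov).trans ((measure_biUnion_finset_le _ _).trans ?_))
    refine (Finset.sum_le_sum fun k _ => hcl k).trans ?_
    rw [Finset.sum_const, nsmul_eq_mul]
    refine mul_le_mul_left ?_ _
    rw [← ENNReal.ofReal_natCast]
    exact ENNReal.ofReal_le_ofReal hcard
  have e : m / K ^ (n * n) * r ^ (n * n) = (r / K) ^ (n * n) * m := by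
    rw [div_pow]
    ring
  rw [e, ENNReal.ofReal_mul (by positivity)]
  refine (mul_le_mul_right hsum _).trans ?_
  rw [← mul_assoc, ← ENNReal.ofReal_mul (by positivity), ← mul_pow]
  have : r / K * (K / r) = 1 := by field_simp
  simp [this]

omit [T2Space G] [SecondCountableTopology G] in
theorem Gauge.exists_lipM (Γ : Gauge D) : ∃ (A : ℝ) (L : ℕ), 0 ≤ A ∧ ∀ r : ℝ, 0 < r → r ≤ 1 →
    ∃ ν : Measure G, IsProbabilityMeasure ν ∧ (∀ᵐ u ∂ν, Γ.dd u ≤ r) ∧ LipM Γ.dd (A / r ^ L) ν ∧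
      ν ≤ ENNReal.ofReal (A / r ^ L) • (Measure.haar : Measure G).restrict {g | Γ.dd g ≤ 1} := by
  obtain ⟨c, hc, L, hL⟩ := Γ.vol
  have hcont := Γ.cont
  set B : Set G := {g | Γ.dd g ≤ 1} with hB
  have hBm : MeasurableSet B := (isClosed_le hcont continuous_const).measurableSet
  have hBf : Measure.haar B ≠ ∞ :=
    ne_top_of_le_ne_top Γ.cpt.measure_lt_top.ne
      (measure_mono fun g (hg : Γ.dd g ≤ 1) => show Γ.dd g ≤ 2 by linarith)
  set b : G → ℝ := B.indicator fun _ => 1 with hb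
  have hbi : Integrable b Measure.haar :=
    (integrable_indicator_iff hBm).2 (integrableOn_const hBf)
  have hb0 : ∀ u, 0 ≤ b u := fun u => indicator_nonneg (fun _ _ => zero_le_one) u
  have hb1 : ∀ u, Γ.dd u ≤ 1 → b u = 1 := fun u hu => indicator_of_mem (s := B) hu _
  set V : ℝ := ∫ u, b u ∂Measure.haar with hV
  have hV0 : 0 ≤ V := integral_nonneg hb0
  refine ⟨(2 * V + 1) * 2 ^ (L + 1) / c, L + 1, by positivity, fun r hr hr1 => ?_⟩
  set ψ : G → ℝ := fun u => max 0 (r - Γ.dd u) with hψ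
  have hψc : Continuous ψ := continuous_const.max (continuous_const.sub hcont)
  have hψ0 : ∀ u, 0 ≤ ψ u := fun u => le_max_left _ _
  have hψz : ∀ u, ¬ Γ.dd u ≤ r → ψ u = 0 := fun u hu => max_eq_left (by linarith [not_le.1 hu])
  have hψb : ∀ u, ψ u ≤ b u := by
    intro u
    by_cases hu : Γ.dd u ≤ r
    · rw [hb1 u (hu.trans hr1)]
      exact max_le zero_le_one (by linarith [Γ.nonneg u])
    · rw [hψz u hu]
      exact hb0 u
  have hψi : Integrable ψ Measure.haar :=
    hbi.mono' hψc.aestronglyMeasurable (Eventually.of_forall fun u => by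
      rw [Real.norm_of_nonneg (hψ0 u)]
      exact hψb u)
  set I : ℝ := ∫ u, ψ u ∂Measure.haar with hI
  have hIl : c * (r / 2) ^ (L + 1) ≤ I := by
    have hm : MeasurableSet {g | Γ.dd g < r / 2} :=
      (isOpen_lt hcont continuous_const).measurableSet
    have h1 : ENNReal.ofReal (r / 2) * Measure.haar {g | Γ.dd g < r / 2} ≤ ENNReal.ofReal I := by
      rw [hI, ofReal_integral_eq_lintegral_ofReal hψi (Eventually.of_forall hψ0),
        ← setLIntegral_const]
      refine le_trans (setLIntegral_mono' hm fun u (hu : Γ.dd u < r / 2) => ?_)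
        (setLIntegral_le_lintegral _ _)
      exact ENNReal.ofReal_le_ofReal (le_max_of_le_right (by linarith))
    have h2 := (mul_le_mul_right (hL (r / 2) (by positivity) (by linarith)) _).trans h1
    rw [← ENNReal.ofReal_mul (by positivity),
      ENNReal.ofReal_le_ofReal_iff (integral_nonneg hψ0)] at h2
    calc c * (r / 2) ^ (L + 1) = r / 2 * (c * (r / 2) ^ L) := by ring
      _ ≤ I := h2
  have hI0 : 0 < I := lt_of_lt_of_le (by positivity) hIl
  set A : ℝ := (2 * V + 1) * 2 ^ (L + 1) / c / r ^ (L + 1) with hA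
  have hAI : (2 * V + 1) / I ≤ A := by
    have e : A = (2 * V + 1) / (c * (r / 2) ^ (L + 1)) := by
      rw [hA, div_pow]
      field_simp
    rw [e]
    exact div_le_div_of_nonneg_left (by positivity) (by positivity) hIl
  have hφm : Measurable fun u => ENNReal.ofReal (ψ u / I) :=
    (hψc.measurable.div_const I).ennreal_ofReal
  have hint : ∀ f : G → ℝ, ∫ u, f u ∂(Measure.haar.withDensity fun u => ENNReal.ofReal (ψ u / I)) =
      ∫ u, ψ u / I * f u ∂Measure.haar := by
    intro f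
    rw [integral_withDensity_eq_integral_toReal_smul hφm
      (Eventually.of_forall fun _ => ENNReal.ofReal_lt_top)]
    refine integral_congr_ae (Eventually.of_forall fun u => ?_)
    simp only [smul_eq_mul]
    rw [ENNReal.toReal_ofReal (div_nonneg (hψ0 u) hI0.le)]
  refine ⟨Measure.haar.withDensity fun u => ENNReal.ofReal (ψ u / I), ⟨?_⟩, ?_, ?_, ?_⟩
  · rw [withDensity_apply _ MeasurableSet.univ, Measure.restrict_univ,
      ← ofReal_integral_eq_lintegral_ofReal (hψi.div_const I)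
        (Eventually.of_forall fun u => div_nonneg (hψ0 u) hI0.le), integral_div, ← hI,
      div_self hI0.ne', ENNReal.ofReal_one]
  · rw [ae_withDensity_iff hφm]
    refine Eventually.of_forall fun u hu => ?_
    by_contra h
    simp [hψz u h] at hu
  · intro g f hf hf1
    rw [hint, hint]
    have e1 : ∫ u, ψ u / I * f (g * u) ∂Measure.haar =
        ∫ u, ψ (g⁻¹ * u) / I * f u ∂Measure.haar := by
      rw [← integral_mul_left_eq_self (fun u => ψ (g⁻¹ * u) / I * f u) g]
      simp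
    have hm : ∀ φ : G → ℝ, Integrable φ Measure.haar →
        Integrable (fun u => φ u / I * f u) Measure.haar := fun φ hφ =>
      (hφ.div_const I).mul_bdd hf.aestronglyMeasurable (Eventually.of_forall hf1)
    rw [e1, ← integral_sub (hm _ (hψi.comp_mul_left g⁻¹)) (hm _ hψi)]
    have hg0 := Γ.nonneg g
    have hle : ∀ u, ‖ψ (g⁻¹ * u) / I * f u - ψ u / I * f u‖ ≤
        Γ.dd g / I * (b (g⁻¹ * u) + b u) := by
      intro u
      have h1 : |ψ (g⁻¹ * u) - ψ u| ≤ Γ.dd g := by
        have a1 := Γ.mul g⁻¹ u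
        have a2 := Γ.mul g (g⁻¹ * u)
        rw [Γ.inv] at a1
        rw [mul_inv_cancel_left] at a2
        refine le_trans ?_ (abs_le.2 ⟨by linarith, by linarith⟩ :
          |(r - Γ.dd (g⁻¹ * u)) - (r - Γ.dd u)| ≤ Γ.dd g)
        simp only [hψ]
        rw [max_comm 0, max_comm 0]
        exact abs_max_sub_max_le_abs _ _ _
      have h2 : |ψ (g⁻¹ * u) - ψ u| ≤ Γ.dd g * (b (g⁻¹ * u) + b u) := by
        by_cases h3 : Γ.dd u ≤ r
        · rw [hb1 u (h3.trans hr1)]
          nlinarith [hb0 (g⁻¹ * u)]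
        by_cases h4 : Γ.dd (g⁻¹ * u) ≤ r
        · rw [hb1 _ (h4.trans hr1)]
          nlinarith [hb0 u]
        rw [hψz _ h3, hψz _ h4, sub_zero, abs_zero]
        exact mul_nonneg hg0 (add_nonneg (hb0 _) (hb0 _))
      rw [← sub_mul, ← sub_div, Real.norm_eq_abs, abs_mul, abs_div, abs_of_pos hI0,
        div_mul_eq_mul_div (Γ.dd g)]
      exact (mul_le_of_le_one_right (by positivity) (hf1 u)).trans
        (div_le_div_of_nonneg_right h2 hI0.le)
    refine (norm_integral_le_of_norm_le (((hbi.comp_mul_left g⁻¹).add hbi).const_mul (Γ.dd g / I))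
      (Eventually.of_forall hle)).trans ?_
    simp only [Pi.add_apply]
    rw [integral_const_mul, integral_add (hbi.comp_mul_left g⁻¹) hbi,
      integral_mul_left_eq_self b g⁻¹, ← hV]
    calc Γ.dd g / I * (V + V) ≤ (2 * V + 1) / I * Γ.dd g := by
          rw [div_mul_eq_mul_div, div_mul_eq_mul_div]
          exact div_le_div_of_nonneg_right (by nlinarith) hI0.le
      _ ≤ A * Γ.dd g := mul_le_mul_of_nonneg_right hAI hg0
  · rw [← withDensity_const, ← withDensity_indicator hBm]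
    refine withDensity_mono (Eventually.of_forall fun u => ?_)
    by_cases hu : Γ.dd u ≤ 1
    · rw [indicator_of_mem (s := B) hu]
      refine ENNReal.ofReal_le_ofReal (le_trans ?_ hAI)
      refine div_le_div_of_nonneg_right ?_ hI0.le
      linarith [hψb u, hb1 u hu]
    · simp [hψz u fun h => hu (h.trans hr1)]

end Pool.Agent.P.MP_d483fb_an.Z.EM
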